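import Mathlib

namespace Pool.Agent.H25.LD

open Polynomial Matrix Finset

variable {K : Type*} [Field K] {N : ℕ}

noncomputable def polA (c : Fin N → K) : K[X] := ∏ k, (X + C (c k))
noncomputable def polB (c : Fin N → K) : K[X] := ∏ k, (X - C (c k))
noncomputable def polP (c : Fin N → K) (j : Fin N) : K[X] := ∏ k ∈ univ.erase j, (X + C (c k))
noncomputable def polF (c : Fin N → K) : K[X] :=
  X * polA c - (X + C (2 * ∑ k, c k)) * polB c

theorem polP_mul (c : Fin N → K) (j : Fin N) : polP c j * (X + C (c j)) = polA c := by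
  unfold polP polA
  exact Finset.prod_erase_mul univ (fun k => (X + C (c k) : K[X])) (Finset.mem_univ j)

theorem polA_eq (c : Fin N → K) : polA c = ∏ k, (X - C (-c k)) := by
  unfold polA
  refine Finset.prod_congr rfl fun k _ => ?_
  simp

theorem natDegree_polA (c : Fin N → K) : (polA c).natDegree = N := by
  rw [polA_eq, natDegree_prod_of_monic _ _ (fun k _ => monic_X_sub_C _)]
  simp

theorem natDegree_polB (c : Fin N → K) : (polB c).natDegree = N := by
  unfold polB
  rw [natDegree_prod_of_monic _ _ (fun k _ => monic_X_sub_C _)]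
  simp

theorem monic_polA (c : Fin N → K) : (polA c).Monic := by
  rw [polA_eq]; exact monic_prod_of_monic _ _ (fun k _ => monic_X_sub_C _)

theorem monic_polB (c : Fin N → K) : (polB c).Monic := by
  unfold polB; exact monic_prod_of_monic _ _ (fun k _ => monic_X_sub_C _)

theorem natDegree_polP (c : Fin N → K) (j : Fin N) : (polP c j).natDegree < N := by
  have h1 : (polP c j) = ∏ k ∈ univ.erase j, (X - C (-c k)) := by
    unfold polP
    refine Finset.prod_congr rfl fun k _ => ?_
    simp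
  rw [h1, natDegree_prod_of_monic _ _ (fun k _ => monic_X_sub_C _)]
  simp
  have := j.2
  omega

theorem coeff_polF (c : Fin N → K) (hN : 0 < N) (m : ℕ) (hm : N ≤ m) : (polF c).coeff m = 0 := by
  obtain ⟨n, rfl⟩ : ∃ n, m = n + 1 := ⟨m - 1, by omega⟩
  have hA : ∀ m, N < m → (polA c).coeff m = 0 := fun m hm =>
    coeff_eq_zero_of_natDegree_lt (by rw [natDegree_polA]; exact hm)
  have hB : ∀ m, N < m → (polB c).coeff m = 0 := fun m hm =>
    coeff_eq_zero_of_natDegree_lt (by rw [natDegree_polB]; exact hm)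
  have hAN : (polA c).coeff N = 1 := by
    have := monic_polA c
    rw [Monic, leadingCoeff, natDegree_polA] at this; exact this
  have hBN : (polB c).coeff N = 1 := by
    have := monic_polB c
    rw [Monic, leadingCoeff, natDegree_polB] at this; exact this
  have hA1 : (polA c).coeff (N - 1) = ∑ k, c k := by
    have := prod_X_sub_C_coeff_card_pred (univ : Finset (Fin N)) (fun k => - c k)
      (by simpa using hN)
    rw [polA_eq]
    simpa using this
  have hB1 : (polB c).coeff (N - 1) = - ∑ k, c k := by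
    have := prod_X_sub_C_coeff_card_pred (univ : Finset (Fin N)) (fun k => c k)
      (by simpa using hN)
    unfold polB
    simpa using this
  unfold polF
  rw [coeff_sub, add_mul, coeff_add, coeff_X_mul, coeff_X_mul, coeff_C_mul]
  rcases lt_trichotomy (n + 1) (N + 1) with h | h | h
  · have h1 : n + 1 = N := by omega
    have h2 : n = N - 1 := by omega
    rw [h1, h2, hA1, hB1, hBN]; ring
  · have h1 : n = N := by omega
    rw [h1, hAN, hBN, hB (N + 1) (by omega)]; ring
  · rw [hA n (by omega), hB n (by omega), hB (n + 1) (by omega)]; ring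

theorem natDegree_polF (c : Fin N → K) (hN : 0 < N) : (polF c).natDegree < N := by
  by_contra h
  push Not at h
  have h1 := coeff_polF c hN _ h
  have h2 : polF c = 0 := by
    rw [← leadingCoeff_eq_zero]; exact h1
  rw [h2] at h
  simp at h
  omega

theorem eval_matrix (v : Fin N → K) (g : Fin N → K[X]) (hg : ∀ j, (g j).natDegree < N) :
    Matrix.of (fun i j => (g j).eval (v i)) =
      vandermonde v * Matrix.of (fun (m : Fin N) j => (g j).coeff m) := by
  ext i j
  rw [Matrix.mul_apply]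
  simp only [Matrix.of_apply, vandermonde_apply]
  rw [eval_eq_sum_range' (hg j), Finset.sum_range]
  refine Finset.sum_congr rfl fun m _ => by ring

theorem det_vandermonde_neg (c : Fin N → K) :
    (vandermonde (fun i => - c i)).det = (-1) ^ (N * (N - 1) / 2) * (vandermonde c).det := by
  have h1 : vandermonde (fun i => - c i) =
      Matrix.of (fun i j : Fin N => (-1 : K) ^ (j : ℕ) * vandermonde c i j) := by
    ext i j
    simp only [Matrix.of_apply, vandermonde_apply]
    rw [neg_pow]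
  rw [h1, Matrix.det_mul_row]
  congr 1
  rw [Finset.prod_pow_eq_pow_sum, Fin.sum_univ_eq_sum_range (fun i => i), Finset.sum_range_id]

theorem det_eval_neg (c : Fin N → K)
    (g : Fin N → K[X]) (hg : ∀ j, (g j).natDegree < N) :
    (Matrix.of (fun i j => (g j).eval (c i))).det =
      (-1) ^ (N * (N - 1) / 2) * (Matrix.of (fun i j => (g j).eval (- c i))).det := by
  rw [eval_matrix c g hg, eval_matrix (fun i => - c i) g hg, Matrix.det_mul, Matrix.det_mul,
    det_vandermonde_neg, ← mul_assoc, ← mul_assoc, ← pow_add, ← two_mul, pow_mul]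
  simp


theorem eval_polP_neg_ne {c : Fin N → K} {i j : Fin N} (h : i ≠ j) :
    (polP c j).eval (- c i) = 0 := by
  unfold polP
  rw [eval_prod]
  exact Finset.prod_eq_zero (Finset.mem_erase.2 ⟨h, Finset.mem_univ i⟩) (by simp)

theorem eval_polP_neg_self {c : Fin N → K} (i : Fin N) :
    (polP c i).eval (- c i) = ∏ k ∈ univ.erase i, (c k - c i) := by
  unfold polP
  rw [eval_prod]
  refine Finset.prod_congr rfl fun k _ => by simp; ring

theorem eval_polP_neg_self_ne_zero {c : Fin N → K} (hc : Function.Injective c) (i : Fin N) :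
    (polP c i).eval (- c i) ≠ 0 := by
  rw [eval_polP_neg_self, Finset.prod_ne_zero_iff]
  intro k hk
  rw [sub_ne_zero]
  exact fun h => (Finset.mem_erase.1 hk).1 (hc h)

/-- coefficients of `polF` on the `polP` -/
noncomputable def wt (c : Fin N → K) (i : Fin N) : K :=
  (polF c).eval (- c i) / (polP c i).eval (- c i)

theorem polF_eq_sum {c : Fin N → K} (hc : Function.Injective c) (hN : 0 < N) :
    polF c = ∑ j, C (wt c j) * polP c j := by
  have hinj : Function.Injective (fun i => - c i) := fun i j h => hc (neg_injective h)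
  refine Polynomial.eq_of_degrees_lt_of_eval_index_eq (univ : Finset (Fin N))
    (v := fun i => - c i) hinj.injOn ?_ ?_ ?_
  · rw [Finset.card_univ, Fintype.card_fin]
    by_cases h0 : polF c = 0
    · rw [h0, degree_zero]; exact WithBot.bot_lt_coe N
    · rw [degree_eq_natDegree h0]; exact_mod_cast natDegree_polF c hN
  · rw [Finset.card_univ, Fintype.card_fin]
    rw [← mem_degreeLT]
    refine Submodule.sum_mem _ fun j _ => ?_
    rw [mem_degreeLT]
    refine lt_of_le_of_lt degree_le_natDegree ?_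
    exact_mod_cast lt_of_le_of_lt (natDegree_C_mul_le _ _) (natDegree_polP c j)
  · intro i _
    rw [eval_finsetSum, Finset.sum_eq_single i]
    · simp only [eval_mul, eval_C, wt]
      rw [div_mul_cancel₀ _ (eval_polP_neg_self_ne_zero hc i)]
    · intro j _ hj
      rw [eval_mul, eval_polP_neg_ne hj.symm, mul_zero]
    · intro h; exact absurd (Finset.mem_univ i) h

theorem polB_comp (c : Fin N → K) : polB c = C ((-1) ^ N) * (polA c).comp (-X) := by
  unfold polA polB
  rw [Polynomial.prod_comp]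
  have h1 : (C ((-1 : K) ^ N) : K[X]) = ∏ _k : Fin N, (C (-1 : K)) := by
    rw [Finset.prod_const, Finset.card_univ, Fintype.card_fin, C_pow]
  rw [h1, ← Finset.prod_mul_distrib]
  refine Finset.prod_congr rfl fun k _ => ?_
  simp
  ring

theorem coeff_zero_polA (c : Fin N → K) : (polA c).coeff 0 = ∏ k, c k := by
  rw [coeff_zero_eq_eval_zero]
  unfold polA
  rw [eval_prod]
  simp

theorem coeff_one_prod {ι : Type*} [DecidableEq ι] (s : Finset ι) (c : ι → K)
    (h : ∀ i ∈ s, c i ≠ 0) :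
    (∏ k ∈ s, (X + C (c k)) : K[X]).coeff 1 = (∏ k ∈ s, c k) * ∑ k ∈ s, (c k)⁻¹ := by
  induction s using Finset.induction_on with
  | empty => simp [coeff_one]
  | insert a s ha ih =>
    rw [Finset.prod_insert ha, Finset.prod_insert ha, Finset.sum_insert ha, add_mul, coeff_add,
      coeff_X_mul, coeff_C_mul, ih (fun i hi => h i (Finset.mem_insert_of_mem hi)),
      coeff_zero_eq_eval_zero, eval_prod]
    have ha0 := h a (Finset.mem_insert_self a s)
    simp only [eval_add, eval_X, eval_C, zero_add]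
    field_simp

theorem coeff_one_polA {c : Fin N → K} (h0 : ∀ i, c i ≠ 0) :
    (polA c).coeff 1 = (∏ k, c k) * ∑ k, (c k)⁻¹ := by
  unfold polA
  exact coeff_one_prod _ _ (fun i _ => h0 i)

theorem coeff_zero_polB (c : Fin N → K) : (polB c).coeff 0 = (-1) ^ N * ∏ k, c k := by
  rw [coeff_zero_eq_eval_zero]
  unfold polB
  rw [eval_prod]
  simp only [eval_sub, eval_X, eval_C, zero_sub]
  rw [Finset.prod_neg, Finset.card_univ, Fintype.card_fin]

theorem coeff_one_polB {c : Fin N → K} (h0 : ∀ i, c i ≠ 0) :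
    (polB c).coeff 1 = -((-1) ^ N * ((∏ k, c k) * ∑ k, (c k)⁻¹)) := by
  have h1 : polB c = ∏ k, (X + C (- c k)) := by
    unfold polB
    refine Finset.prod_congr rfl fun k _ => by simp [sub_eq_add_neg]
  rw [h1, coeff_one_prod _ _ (fun i _ => neg_ne_zero.2 (h0 i))]
  rw [Finset.prod_neg, Finset.card_univ, Fintype.card_fin]
  simp only [inv_neg, Finset.sum_neg_distrib]
  ring

theorem sum_wt {c : Fin N → K} (hc : Function.Injective c) (h0 : ∀ i, c i ≠ 0) (hN : 0 < N) :
    1 + ∑ j, wt c j / (c j) ^ 2 = (-1) ^ N * (1 - 4 * (∑ k, c k) * ∑ k, (c k)⁻¹) := by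
  have hA0 : (polA c).coeff 0 ≠ 0 := by
    rw [coeff_zero_polA]; exact Finset.prod_ne_zero_iff.2 fun i _ => h0 i
  have hP0 : ∀ j, (polP c j).coeff 0 = (polA c).coeff 0 / c j := by
    intro j
    rw [← polP_mul c j, mul_add, coeff_add, coeff_mul_C, mul_comm (polP c j) X, coeff_X_mul_zero,
      zero_add, mul_div_cancel_right₀ _ (h0 j)]
  have hP1 : ∀ j, (polP c j).coeff 1 =
      (polA c).coeff 1 / c j - (polA c).coeff 0 / (c j) ^ 2 := by
    intro j
    have h1 : (polA c).coeff 1 = (polP c j).coeff 0 + (polP c j).coeff 1 * c j := by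
      rw [← polP_mul c j, mul_add, coeff_add, coeff_mul_C, mul_comm (polP c j) X, coeff_X_mul]
    rw [h1, hP0 j]
    have := h0 j
    field_simp
    ring
  have hF := polF_eq_sum hc hN
  have hF0 : (polF c).coeff 0 = (polA c).coeff 0 * ∑ j, wt c j / c j := by
    conv_lhs => rw [hF]
    rw [finsetSum_coeff, Finset.mul_sum]
    refine Finset.sum_congr rfl fun j _ => ?_
    rw [coeff_C_mul, hP0 j]; ring
  have hF1 : (polF c).coeff 1 = (polA c).coeff 1 * ∑ j, wt c j / c j -
      (polA c).coeff 0 * ∑ j, wt c j / (c j) ^ 2 := by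
    conv_lhs => rw [hF]
    rw [finsetSum_coeff, Finset.mul_sum, Finset.mul_sum, ← Finset.sum_sub_distrib]
    refine Finset.sum_congr rfl fun j _ => ?_
    rw [coeff_C_mul, hP1 j]; ring
  have hF0' : (polF c).coeff 0 = - (2 * ∑ k, c k) * (polB c).coeff 0 := by
    unfold polF
    rw [coeff_sub, add_mul, coeff_add, coeff_X_mul_zero, coeff_X_mul_zero, coeff_C_mul]; ring
  have hF1' : (polF c).coeff 1 = (polA c).coeff 0 - (polB c).coeff 0 -
      (2 * ∑ k, c k) * (polB c).coeff 1 := by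
    unfold polF
    rw [coeff_sub, add_mul, coeff_add, coeff_X_mul, coeff_X_mul, coeff_C_mul]; ring
  rw [coeff_one_polA h0] at hF1
  rw [coeff_zero_polA] at hF0 hF1 hF1' hA0
  rw [coeff_zero_polB] at hF0' hF1'
  rw [coeff_one_polB h0] at hF1'
  have hsq : ((-1 : K) ^ N) ^ 2 = 1 := by rw [← pow_mul, mul_comm, pow_mul]; simp
  obtain ⟨E, hE⟩ : ∃ E, E = ∏ k, c k := ⟨_, rfl⟩
  obtain ⟨s, hs⟩ : ∃ s, s = ∑ k, c k := ⟨_, rfl⟩
  obtain ⟨s', hs'⟩ : ∃ s', s' = ∑ k, (c k)⁻¹ := ⟨_, rfl⟩
  obtain ⟨S1, hS1⟩ : ∃ S, S = ∑ j, wt c j / c j := ⟨_, rfl⟩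
  obtain ⟨S2, hS2⟩ : ∃ S, S = ∑ j, wt c j / (c j) ^ 2 := ⟨_, rfl⟩
  obtain ⟨e, he⟩ : ∃ e, e = (-1 : K) ^ N := ⟨_, rfl⟩
  rw [← hE, ← hS1] at hF0
  rw [← hE, ← hS1, ← hS2, ← hs'] at hF1
  rw [← hE, ← hs, ← he] at hF0'
  rw [← hE, ← hs, ← he, ← hs'] at hF1'
  rw [← hE] at hA0
  rw [← hS2, ← hs, ← hs', ← he]
  have h1 : E * S1 = -(2 * s) * (e * E) := by rw [← hF0, hF0']
  have h2 : S1 = -(2 * s) * e := by
    apply mul_left_cancel₀ hA0
    rw [h1]; ring
  have h3 : E * s' * S1 - E * S2 = E - e * E - 2 * s * -(e * (E * s')) := by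
    rw [← hF1, hF1']
  apply mul_left_cancel₀ hA0
  rw [h2] at h3
  linear_combination -h3

theorem eval_polF_self (c : Fin N → K) (i : Fin N) :
    (polF c).eval (c i) = c i * (polA c).eval (c i) := by
  have : (polB c).eval (c i) = 0 := by
    unfold polB
    rw [eval_prod]
    exact Finset.prod_eq_zero (Finset.mem_univ i) (by simp)
  unfold polF
  simp [this]

theorem det_fin {c : Fin N → K} (hc : Function.Injective c) (hs : ∀ i j, c i + c j ≠ 0)
    (h0 : ∀ i, c i ≠ 0) (hN : 0 < N) :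
    (∏ i, ∏ k, (c k + c i)) * (Matrix.of (fun i j => ((c i) ^ 2 + c i * c j + (c j) ^ 2) /
      (c i + c j))).det = (-1) ^ (N * (N - 1) / 2 + N) *
      (1 - 4 * (∑ k, c k) * ∑ k, (c k)⁻¹) *
      ∏ i, ((c i) ^ 2 * ∏ k ∈ univ.erase i, (c k - c i)) := by
  obtain ⟨g, hg⟩ : ∃ g : Fin N → K[X], g = fun j => C ((c j) ^ 2) * polP c j + polF c := ⟨_, rfl⟩
  have hdeg : ∀ j, (g j).natDegree < N := by
    intro j
    rw [hg]
    refine lt_of_le_of_lt (natDegree_add_le _ _) (max_lt ?_ (natDegree_polF c hN))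
    exact lt_of_le_of_lt (natDegree_C_mul_le _ _) (natDegree_polP c j)
  have h1 := det_eval_neg c g hdeg
  have hA : ∀ i, (polA c).eval (c i) = ∏ k, (c k + c i) := by
    intro i
    unfold polA
    rw [eval_prod]
    refine Finset.prod_congr rfl fun k _ => by simp; ring
  have h2 : (Matrix.of (fun i j => (g j).eval (c i))) = Matrix.of (fun i j =>
      (∏ k, (c k + c i)) * (Matrix.of (fun i j => ((c i) ^ 2 + c i * c j + (c j) ^ 2) /
      (c i + c j))) i j) := by
    ext i j
    simp only [Matrix.of_apply]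
    rw [← hA i, hg]
    simp only [eval_add, eval_mul, eval_C, eval_polF_self]
    rw [← polP_mul c j]
    simp only [eval_add, eval_mul, eval_C, eval_X]
    have := hs i j
    field_simp
    ring
  rw [h2, Matrix.det_mul_column] at h1
  rw [h1]
  have h3 : (Matrix.of (fun i j => (g j).eval (- c i))) = Matrix.of (fun i j =>
      ((c i) ^ 2 * (polP c i).eval (- c i)) *
        ((1 : Matrix (Fin N) (Fin N) K) + Matrix.replicateCol (Fin 1) (fun i => wt c i / (c i) ^ 2) *
        Matrix.replicateRow (Fin 1) (fun _ : Fin N => (1 : K)) : Matrix (Fin N) (Fin N) K) i j) := by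
    ext i j
    simp only [Matrix.of_apply, Matrix.add_apply, Matrix.mul_apply, Matrix.replicateCol_apply,
      Matrix.replicateRow_apply, Matrix.one_apply]
    have h4 := eval_polP_neg_self_ne_zero hc i
    have h5 := h0 i
    rw [hg]
    simp only [eval_add, eval_mul, eval_C, wt]
    by_cases hij : i = j
    · subst hij
      simp
      field_simp
    · rw [eval_polP_neg_ne hij]
      simp [hij]
      field_simp
  have h7 : ((1 : Matrix (Fin N) (Fin N) K) +
      Matrix.replicateCol (Fin 1) (fun i => wt c i / (c i) ^ 2) *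
        Matrix.replicateRow (Fin 1) (fun _ : Fin N => (1 : K)) : Matrix (Fin N) (Fin N) K).det =
      1 + ∑ j, wt c j / (c j) ^ 2 := by
    rw [det_one_add_mul_comm, det_fin_one]
    simp [Matrix.mul_apply]
  rw [h3, Matrix.det_mul_column, h7]
  have h6 := sum_wt hc h0 hN
  rw [h6, pow_add]
  simp only [eval_polP_neg_self]
  ring

theorem det_main_fin {c : Fin N → K} (hc : Function.Injective c) (hs : ∀ i j, c i + c j ≠ 0)
    (hN : 0 < N) :
    (Matrix.of (fun i j => 2 * (c i) ^ 2 * ((c i) ^ 2 + c i * c j + (c j) ^ 2) /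
      ((c j) ^ 3 * (c i + c j)))).det = (-1) ^ (N * (N - 1) / 2 + N) *
      (1 - 4 * (∑ k, c k) * ∑ k, (c k)⁻¹) *
      ∏ i, ∏ k ∈ univ.erase i, ((c k - c i) / (c k + c i)) := by
  have h2 : ∀ i, (2 : K) * c i ≠ 0 := fun i => by rw [two_mul]; exact hs i i
  have h0 : ∀ i, c i ≠ 0 := fun i => right_ne_zero_of_mul (h2 i)
  have h20 : (2 : K) ≠ 0 := left_ne_zero_of_mul (h2 ⟨0, hN⟩)
  have h1 := det_fin hc hs h0 hN
  have h3 : (Matrix.of (fun i j => 2 * (c i) ^ 2 * ((c i) ^ 2 + c i * c j + (c j) ^ 2) /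
      ((c j) ^ 3 * (c i + c j)))) = Matrix.of (fun i j => (2 * (c i) ^ 2) *
        (Matrix.of fun i j => ((c j) ^ 3)⁻¹ * (Matrix.of (fun i j =>
          ((c i) ^ 2 + c i * c j + (c j) ^ 2) / (c i + c j))) i j) i j) := by
    ext i j
    simp only [Matrix.of_apply]
    have := hs i j
    have := h0 j
    field_simp
  rw [h3, Matrix.det_mul_column, Matrix.det_mul_row]
  have hne : (∏ i, ∏ k, (c k + c i)) ≠ 0 :=
    Finset.prod_ne_zero_iff.2 fun i _ => Finset.prod_ne_zero_iff.2 fun k _ => hs k i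
  apply mul_left_cancel₀ hne
  have h4 : (∏ i, ∏ k, (c k + c i)) * ((∏ i, 2 * (c i) ^ 2) * ((∏ i, ((c i) ^ 3)⁻¹) *
      (Matrix.of (fun i j => ((c i) ^ 2 + c i * c j + (c j) ^ 2) / (c i + c j))).det)) =
      (∏ i, 2 * (c i) ^ 2) * (∏ i, ((c i) ^ 3)⁻¹) * ((∏ i, ∏ k, (c k + c i)) *
      (Matrix.of (fun i j => ((c i) ^ 2 + c i * c j + (c j) ^ 2) / (c i + c j))).det) := by ring
  rw [h4, h1]
  have h5 : (∏ i, 2 * (c i) ^ 2) * (∏ i, ((c i) ^ 3)⁻¹) *
      ∏ i, ((c i) ^ 2 * ∏ k ∈ univ.erase i, (c k - c i)) =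
      (∏ i, ∏ k, (c k + c i)) * ∏ i, ∏ k ∈ univ.erase i, ((c k - c i) / (c k + c i)) := by
    rw [← Finset.prod_mul_distrib, ← Finset.prod_mul_distrib, ← Finset.prod_mul_distrib]
    refine Finset.prod_congr rfl fun i _ => ?_
    rw [Finset.prod_div_distrib, ← Finset.mul_prod_erase univ (fun k => c k + c i)
      (Finset.mem_univ i)]
    have h6 : ∏ k ∈ univ.erase i, (c k + c i) ≠ 0 :=
      Finset.prod_ne_zero_iff.2 fun k _ => hs k i
    have := h0 i
    field_simp
    ring
  calc _ = (-1) ^ (N * (N - 1) / 2 + N) * (1 - 4 * (∑ k, c k) * ∑ k, (c k)⁻¹) *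
      ((∏ i, 2 * (c i) ^ 2) * (∏ i, ((c i) ^ 3)⁻¹) *
      ∏ i, ((c i) ^ 2 * ∏ k ∈ univ.erase i, (c k - c i))) := by ring
    _ = _ := by rw [h5]; ring

theorem det_main {ι : Type*} [Fintype ι] [DecidableEq ι] (c : ι → K) (hc : Function.Injective c)
    (hs : ∀ i j, c i + c j ≠ 0) (hN : 0 < Fintype.card ι) :
    (Matrix.of (fun i j => 2 * (c i) ^ 2 * ((c i) ^ 2 + c i * c j + (c j) ^ 2) /
      ((c j) ^ 3 * (c i + c j)))).det =
      (-1) ^ (Fintype.card ι * (Fintype.card ι - 1) / 2 + Fintype.card ι) *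
      (1 - 4 * (∑ k, c k) * ∑ k, (c k)⁻¹) *
      ∏ i, ∏ k ∈ univ.erase i, ((c k - c i) / (c k + c i)) := by
  obtain ⟨e⟩ : Nonempty (Fin (Fintype.card ι) ≃ ι) := ⟨(Fintype.equivFin ι).symm⟩
  have h1 := det_main_fin (c := fun i => c (e i)) (fun i j h => e.injective (hc h))
    (fun i j => hs _ _) hN
  rw [← Matrix.det_submatrix_equiv_self e]
  have h2 : (Matrix.of (fun i j => 2 * (c i) ^ 2 * ((c i) ^ 2 + c i * c j + (c j) ^ 2) /
      ((c j) ^ 3 * (c i + c j)))).submatrix e e = Matrix.of (fun i j => 2 * (c (e i)) ^ 2 *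
      ((c (e i)) ^ 2 + c (e i) * c (e j) + (c (e j)) ^ 2) /
      ((c (e j)) ^ 3 * (c (e i) + c (e j)))) := by
    ext i j; rfl
  rw [h2, h1, Equiv.sum_comp e c, Equiv.sum_comp e (fun i => (c i)⁻¹)]
  congr 1
  rw [← Equiv.prod_comp e (fun i => ∏ k ∈ univ.erase i, ((c k - c i) / (c k + c i)))]
  refine Finset.prod_congr rfl fun i _ => ?_
  refine Finset.prod_bij (fun k _ => e k) ?_ ?_ ?_ ?_
  · intro a ha
    rw [Finset.mem_erase] at ha ⊢
    exact ⟨fun h => ha.1 (e.injective h), Finset.mem_univ _⟩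
  · intro a _ b _ h; exact e.injective h
  · intro b hb
    refine ⟨e.symm b, ?_, e.apply_symm_apply b⟩
    rw [Finset.mem_erase] at hb ⊢
    exact ⟨fun h => hb.1 (by rw [← h, e.apply_symm_apply]), Finset.mem_univ _⟩
  · intro a _; rfl

end Pool.Agent.H25.LD
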