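import Mathlib

/-! The four-parameter determinant in terms of two numbers. -/

namespace Pool.Agent.H25.LD

open Finset Matrix

variable {R : Type*} [CommRing R] {n : ℕ}

/-- matrix with row `0` equal to `r` and other rows those of `S` -/
def rowM (r : Fin (n + 1) → R) (S : Matrix (Fin (n + 1)) (Fin (n + 1)) R) :
    Matrix (Fin (n + 1)) (Fin (n + 1)) R :=
  Matrix.of fun j k => if j = 0 then r k else S j k

omit [CommRing R] in
theorem rowM_eq_updateRow (r : Fin (n + 1) → R) (S : Matrix (Fin (n + 1)) (Fin (n + 1)) R) :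
    rowM r S = S.updateRow 0 r := by
  ext j k
  by_cases h : j = 0
  · subst h; simp [rowM]
  · simp [rowM, h, Matrix.updateRow_apply]

theorem det_rowM_add (r r' : Fin (n + 1) → R) (S : Matrix (Fin (n + 1)) (Fin (n + 1)) R)
    (a b : R) :
    (rowM (fun k => a * r k + b * r' k) S).det = a * (rowM r S).det + b * (rowM r' S).det := by
  rw [rowM_eq_updateRow, rowM_eq_updateRow, rowM_eq_updateRow,
    ← Matrix.det_updateRow_smul, ← Matrix.det_updateRow_smul, ← Matrix.det_updateRow_add]
  rfl

theorem det_col {A B : Matrix (Fin (n + 1)) (Fin (n + 1)) R} (c : Fin (n + 1) → R)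
    (hk : c 0 = 0) (A_eq : ∀ i j, A i j = B i j + c j * B i 0) : A.det = B.det := by
  rw [← Matrix.det_transpose A, ← Matrix.det_transpose B]
  exact Matrix.det_eq_of_forall_row_eq_smul_add_const c 0 hk fun i j => A_eq j i

/-- second coefficient -/
def cOne (L : Matrix (Fin (n + 1)) (Fin (n + 1)) R) : R :=
  (rowM (fun _ => 1) (Matrix.of fun j k => L j k - L 0 k)).det

theorem det_rowL (L : Matrix (Fin (n + 1)) (Fin (n + 1)) R) :
    (rowM (L 0) (Matrix.of fun j k => L j k - L 0 k)).det = L.det := by
  symm
  refine Matrix.det_eq_of_forall_row_eq_smul_add_const (fun j => if j = 0 then 0 else 1) 0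
    (by simp) fun i j => ?_
  by_cases h : i = 0
  · subst h; simp [rowM]
  · simp [rowM, h]

theorem det_addCol (L : Matrix (Fin (n + 1)) (Fin (n + 1)) R) (y : R) :
    (Matrix.of fun j k => L j k + L j 0 * y).det = L.det * (1 + y) := by
  have h1 : (Matrix.of fun j k => L j k + L j 0 * y) =
      L * (1 + Matrix.replicateCol (Fin 1) (fun j : Fin (n + 1) => if j = 0 then (1 : R) else 0) *
        Matrix.replicateRow (Fin 1) (fun _ : Fin (n + 1) => y)) := by
    ext j k
    rw [Matrix.mul_add, Matrix.mul_one, Matrix.add_apply, ← Matrix.mul_assoc]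
    simp [Matrix.mul_apply]
  rw [h1, Matrix.det_mul, Matrix.det_one_add_mul_comm, Matrix.det_fin_one]
  simp [Matrix.mul_apply]

theorem four_param (L : Matrix (Fin (n + 1)) (Fin (n + 1)) R) (u : Fin (n + 1) → R) (e : R)
    (hu : ∀ j, u j = L j 0) (hu' : ∀ k, u k = e * L 0 k) (h00 : L 0 0 = 0)
    (x y z w : R) :
    (Matrix.of fun j k => x + L j k + u j * y + u k * z + u j * u k * w).det =
      L.det * ((1 + y) * (1 + e * z) - e * w * x) + x * cOne L := by
  have hu0 : u 0 = 0 := by rw [hu, h00]
  -- step 1
  have s1 : (Matrix.of fun j k => x + L j k + u j * y + u k * z + u j * u k * w).det =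
      (rowM (fun k => x * 1 + (1 + e * z) * L 0 k)
        (Matrix.of fun j k => L j k - L 0 k + u j * y + u j * u k * w)).det := by
    refine Matrix.det_eq_of_forall_row_eq_smul_add_const (fun j => if j = 0 then 0 else 1) 0
      (by simp) fun i j => ?_
    by_cases h : i = 0
    · subst h; simp [rowM, hu0]; rw [hu' j]; ring
    · simp [rowM, h]; rw [hu' j]; ring
  rw [s1, det_rowM_add (fun _ => 1) (L 0) _ x (1 + e * z)]
  -- the part with row `L 0`
  have s2 : (rowM (L 0) (Matrix.of fun j k => L j k - L 0 k + u j * y + u j * u k * w)).det =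
      L.det * (1 + y) := by
    rw [← det_addCol]
    symm
    refine Matrix.det_eq_of_forall_row_eq_smul_add_const
      (fun j => if j = 0 then 0 else (1 - u j * e * w)) 0 (by simp) fun i j => ?_
    by_cases h : i = 0
    · subst h; simp [rowM, h00]
    · simp [rowM, h]; rw [hu' j, ← hu i]; ring
  -- the part with row `1`
  have s3 : (rowM (fun _ => 1)
      (Matrix.of fun j k => L j k - L 0 k + u j * y + u j * u k * w)).det =
      (rowM (fun _ => 1) (Matrix.of fun j k => L j k - L 0 k + u j * (e * L 0 k) * w)).det := by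
    refine Matrix.det_eq_of_forall_row_eq_smul_add_const
      (fun j => u j * y) 0 (by simp [hu0]) fun i j => ?_
    by_cases h : i = 0
    · subst h; simp [rowM, hu0]
    · simp [rowM, h]; rw [hu' j]; ring
  have s4 : (rowM (fun _ => 1)
      (Matrix.of fun j k => L j k - L 0 k + u j * (e * L 0 k) * w)).det =
      (rowM (fun k => 1 * 1 + (- (e * w)) * L 0 k) (Matrix.of fun j k => L j k - L 0 k)).det := by
    refine det_col (fun k => e * w * L 0 k) (by simp [h00]) fun i j => ?_
    by_cases h : i = 0
    · subst h; simp [rowM, h00]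
    · simp [rowM, h, h00]; rw [hu i]; ring
  rw [s2, s3, s4, det_rowM_add (fun _ => 1) (L 0) _ 1 (-(e * w)), det_rowL]
  unfold cOne
  ring

theorem det_add_const (L : Matrix (Fin (n + 1)) (Fin (n + 1)) R) (x : R) :
    (Matrix.of fun j k => x + L j k).det = L.det + x * cOne L := by
  have s1 : (Matrix.of fun j k => x + L j k).det =
      (rowM (fun k => x * 1 + 1 * L 0 k) (Matrix.of fun j k => L j k - L 0 k)).det := by
    refine Matrix.det_eq_of_forall_row_eq_smul_add_const (fun j => if j = 0 then 0 else 1) 0
      (by simp) fun i j => ?_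
    by_cases h : i = 0
    · subst h; simp [rowM]
    · simp [rowM, h]; ring
  rw [s1, det_rowM_add (fun _ => 1) (L 0) _ x 1, det_rowL]
  unfold cOne
  ring

theorem cOne_map {S : Type*} [CommRing S] (f : R →+* S)
    (L : Matrix (Fin (n + 1)) (Fin (n + 1)) R) : cOne (L.map f) = f (cOne L) := by
  unfold cOne
  rw [RingHom.map_det]
  congr 1
  ext j k
  simp only [rowM, Matrix.of_apply, RingHom.mapMatrix_apply, Matrix.map_apply]
  split_ifs <;> simp

end Pool.Agent.H25.LD
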