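import Mathlib
import Pool.Agent.H25.LD.CauchyDet

/-! Gauss sums and character sums over residues. -/

namespace Pool.Agent.H25.LD

open Finset

variable (p : ℕ) [Fact p.Prime]

/-- the quadratic character of `ZMod p` -/
abbrev qc (a : ZMod p) : ℤ := quadraticChar (ZMod p) a

/-- Gauss sum -/
noncomputable def tau (ψ : AddChar (ZMod p) ℂ) : ℂ := ∑ x, (qc p x : ℂ) * ψ x

/-- quadratic residues -/
def SR : Finset (ZMod p) := univ.filter (fun x => qc p x = 1)

variable {p}

theorem mem_SR {x : ZMod p} : x ∈ SR p ↔ qc p x = 1 := by simp [SR]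

theorem qc_sq (x : ZMod p) : qc p x ^ 2 = if x = 0 then 0 else 1 := by
  split_ifs with h
  · rw [h]; simp [qc]
  · exact quadraticChar_sq_one h

theorem two_mul_ind (x : ZMod p) : (2 * if qc p x = 1 then 1 else 0) =
    (if x = 0 then 0 else 1) + qc p x := by
  by_cases h : x = 0
  · rw [h]; simp [qc]
  · rcases quadraticChar_dichotomy h with h1 | h1
    · simp [qc, h1, h]
    · simp [qc, h1, h]

theorem two_mul_sum_SR {A : Type*} [CommRing A] (f : ZMod p → A) :
    2 * ∑ x ∈ SR p, f x = ∑ x, f x - f 0 + ∑ x, (qc p x : A) * f x := by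
  have h1 : ∑ x ∈ SR p, f x = ∑ x, (((if qc p x = 1 then 1 else 0 : ℤ)) : A) * f x := by
    rw [SR, Finset.sum_filter]
    refine Finset.sum_congr rfl fun x _ => ?_
    split_ifs <;> simp
  have h2 : f 0 = ∑ x : ZMod p, if x = 0 then f x else 0 := by
    rw [Finset.sum_ite_eq' univ 0 f]; simp
  rw [h1, Finset.mul_sum, h2, ← Finset.sum_sub_distrib, ← Finset.sum_add_distrib]
  refine Finset.sum_congr rfl fun x _ => ?_
  have h3 := congrArg (Int.cast : ℤ → A) (two_mul_ind (p := p) x)
  rw [← mul_assoc]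
  have h4 : (2 : A) * (((if qc p x = 1 then 1 else 0 : ℤ)) : A) =
      ((if x = 0 then 0 else 1 : ℤ) : A) + (qc p x : A) := by
    rw [← Int.cast_add, ← h3]; push_cast; ring
  rw [h4]
  split_ifs <;> simp
  ring

theorem qc_sum (hp2 : p ≠ 2) : ∑ x : ZMod p, qc p x = 0 := by
  refine quadraticChar_sum_zero ?_
  rwa [ZMod.ringChar_zmod_n]

theorem card_SR (hp2 : p ≠ 2) : 2 * ((SR p).card : ℤ) = p - 1 := by
  have h := two_mul_sum_SR (p := p) (A := ℤ) (fun _ => 1)
  simp only [Finset.sum_const, nsmul_eq_mul, mul_one, Finset.card_univ, ZMod.card, Int.cast_id,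
    qc_sum hp2] at h
  rw [h]; ring

theorem tau_eq_gaussSum (ψ : AddChar (ZMod p) ℂ) : tau p ψ =
    gaussSum ((quadraticChar (ZMod p)).ringHomComp (Int.castRingHom ℂ)) ψ := by
  unfold tau gaussSum
  refine Finset.sum_congr rfl fun x _ => ?_
  simp [qc]

theorem chC_ne_one (hp2 : p ≠ 2) :
    (quadraticChar (ZMod p)).ringHomComp (Int.castRingHom ℂ) ≠ 1 := by
  rw [MulChar.ringHomComp_ne_one_iff (RingHom.injective_int (Int.castRingHom ℂ))]
  refine quadraticChar_ne_one ?_
  rwa [ZMod.ringChar_zmod_n]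

theorem tau_sq (hp2 : p ≠ 2) {ψ : AddChar (ZMod p) ℂ} (hψ : ψ.IsPrimitive) :
    tau p ψ ^ 2 = qc p (-1) * p := by
  rw [tau_eq_gaussSum, gaussSum_sq (chC_ne_one hp2) _ hψ]
  · simp [qc, ZMod.card]
  · exact (quadraticChar_isQuadratic (ZMod p)).comp _

theorem qc_inv (d : ZMod p) : qc p d⁻¹ = qc p d := by
  by_cases hd : d = 0
  · simp [hd]
  · have h1 : qc p d * qc p d⁻¹ = 1 := by
      unfold qc
      rw [← map_mul, mul_inv_cancel₀ hd, MulChar.map_one]
    rcases quadraticChar_dichotomy hd with h | h <;> (unfold qc at *; rw [h] at h1 ⊢; omega)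

theorem sum_qc_psi (hp2 : p ≠ 2) (ψ : AddChar (ZMod p) ℂ) (d : ZMod p) :
    ∑ x, (qc p x : ℂ) * ψ (x * d) = qc p d * tau p ψ := by
  by_cases hd : d = 0
  · subst hd
    have := qc_sum (p := p) hp2
    simp only [mul_zero, AddChar.map_zero_eq_one, mul_one]
    rw [← Int.cast_sum, this]
    simp [qc]
  · unfold tau
    rw [Finset.mul_sum]
    refine Fintype.sum_bijective (fun x => x * d) (mulRight_bijective₀ d hd) _ _ fun x => ?_
    have h1 : qc p (x * d) = qc p x * qc p d := by unfold qc; rw [map_mul]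
    have h2 := qc_sq (p := p) d
    rw [if_neg hd] at h2
    rw [h1]
    push_cast
    have h3 : (qc p d : ℂ) ^ 2 = 1 := by exact_mod_cast h2
    linear_combination (-(qc p x : ℂ) * ψ (x * d)) * h3

theorem sum_SR_psi (hp2 : p ≠ 2) {ψ : AddChar (ZMod p) ℂ} (hψ : ψ.IsPrimitive) (d : ZMod p) :
    2 * ∑ x ∈ SR p, ψ (x * d) = (if d = 0 then (p : ℂ) else 0) - 1 + qc p d * tau p ψ := by
  rw [two_mul_sum_SR (fun x => ψ (x * d)), sum_qc_psi hp2, AddChar.sum_mulShift d hψ]
  simp [ZMod.card]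

/-- `∑ χ(x) χ(x + d) = -1` -/
theorem sum_qc_mul (hp2 : p ≠ 2) {d : ZMod p} (hd : d ≠ 0) :
    ∑ x : ZMod p, qc p x * qc p (x + d) = -1 := by
  have h1 : ∀ x : ZMod p, x ≠ 0 → qc p x * qc p (x + d) = qc p (1 + d * x⁻¹) := by
    intro x hx
    have : x + d = x * (1 + d * x⁻¹) := by field_simp
    rw [this]
    unfold qc
    rw [map_mul, ← mul_assoc]
    have h2 := qc_sq (p := p) x
    rw [if_neg hx] at h2
    unfold qc at h2
    rw [← pow_two, h2, one_mul]
  have h2 : ∑ x : ZMod p, qc p x * qc p (x + d) = ∑ x : ZMod p, (if x = 0 then 0 else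
      qc p (1 + d * x⁻¹)) := by
    refine Finset.sum_congr rfl fun x _ => ?_
    split_ifs with h
    · rw [h]; simp [qc]
    · exact h1 x h
  have h3 : ∑ x : ZMod p, (if x = 0 then 0 else qc p (1 + d * x⁻¹)) =
      ∑ x : ZMod p, (if x = 0 then 0 else qc p (1 + d * x)) := by
    refine Fintype.sum_bijective (fun x => x⁻¹) inv_involutive.bijective _ _ fun x => ?_
    by_cases hx : x = 0
    · simp [hx]
    · rw [if_neg hx, if_neg (inv_ne_zero hx)]
  have h4 : ∑ x : ZMod p, qc p (1 + d * x) = 0 := by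
    rw [← qc_sum (p := p) hp2]
    refine Fintype.sum_bijective (fun x => 1 + d * x) ?_ _ _ fun x => rfl
    exact (AddGroup.addLeft_bijective (1 : ZMod p)).comp (mulLeft_bijective₀ d hd)
  rw [h2, h3]
  have h5 : ∑ x : ZMod p, qc p (1 + d * x) = ∑ x : ZMod p, ((if x = 0 then qc p (1 + d * x) else 0)
      + (if x = 0 then 0 else qc p (1 + d * x))) := by
    refine Finset.sum_congr rfl fun x _ => ?_
    split_ifs <;> simp
  rw [Finset.sum_add_distrib, Finset.sum_ite_eq' univ 0] at h5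
  simp only [Finset.mem_univ, if_true, mul_zero, add_zero] at h5
  have h6 : qc p (1 : ZMod p) = 1 := by simp [qc]
  rw [h6] at h5
  linarith

/-- number of `x` with `x` and `x + d` both residues -/
def lam (p : ℕ) [Fact p.Prime] (d : ZMod p) : ℕ := ((SR p).filter (fun x => x + d ∈ SR p)).card

theorem four_lam (hp2 : p ≠ 2) {d : ZMod p} (hd : d ≠ 0) :
    4 * (lam p d : ℤ) = p - 3 - qc p d - qc p (-d) := by
  obtain ⟨g, hg⟩ : ∃ g : ZMod p → ℤ, g = fun x => if qc p (x + d) = 1 then 1 else 0 := ⟨_, rfl⟩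
  have h1 : (lam p d : ℤ) = ∑ x ∈ SR p, g x := by
    unfold lam
    rw [Finset.card_filter]
    push_cast
    refine Finset.sum_congr rfl fun x _ => ?_
    rw [hg]
    simp [mem_SR]
  have h2 := two_mul_sum_SR g
  have hg2 : ∀ x, 2 * g x = (if x + d = 0 then 0 else 1) + qc p (x + d) := by
    intro x; rw [hg]; exact two_mul_ind (x + d)
  have h3 : ∑ x, 2 * g x = p - 1 := by
    rw [Finset.sum_congr rfl fun x _ => hg2 x]
    rw [Finset.sum_add_distrib]
    have e1 : ∑ x : ZMod p, qc p (x + d) = 0 := by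
      rw [← qc_sum (p := p) hp2]
      exact Fintype.sum_bijective (fun x => x + d) (AddGroup.addRight_bijective d) _ _ fun x => rfl
    have e2 : ∑ x : ZMod p, (if x + d = 0 then (0 : ℤ) else 1) = p - 1 := by
      have : ∑ x : ZMod p, (if x + d = 0 then (0 : ℤ) else 1) =
          ∑ x : ZMod p, (1 - if x = -d then (1 : ℤ) else 0) := by
        refine Finset.sum_congr rfl fun x _ => ?_
        by_cases h : x = -d
        · simp [h]
        · have : x + d ≠ 0 := fun h' => h (eq_neg_of_add_eq_zero_left h')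
          simp [h, this]
      rw [this, Finset.sum_sub_distrib, Finset.sum_ite_eq' univ (-d)]
      simp [ZMod.card]
    rw [e1, e2]; ring
  have h4 : ∑ x, qc p x * (2 * g x) = - qc p (-d) - 1 := by
    have e1 : ∀ x, qc p x * (2 * g x) = (qc p x - if x = -d then qc p x else 0) +
        qc p x * qc p (x + d) := by
      intro x
      rw [hg2 x]
      by_cases h : x = -d
      · simp [h]
      · have : x + d ≠ 0 := fun h' => h (eq_neg_of_add_eq_zero_left h')
        simp [h, this]; ring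
    rw [Finset.sum_congr rfl fun x _ => e1 x, Finset.sum_add_distrib, Finset.sum_sub_distrib,
      qc_sum hp2, sum_qc_mul hp2 hd, Finset.sum_ite_eq' univ (-d)]
    simp
    ring
  have h5 := hg2 0
  rw [zero_add, if_neg hd] at h5
  rw [← Finset.mul_sum] at h3
  have h6 : ∑ x, qc p x * (2 * g x) = 2 * ∑ x, qc p x * g x := by
    rw [Finset.mul_sum]; exact Finset.sum_congr rfl fun x _ => by ring
  rw [h6] at h4
  simp only [Int.cast_id] at h2
  rw [← h1] at h2
  linarith

end Pool.Agent.H25.LD
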