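import Mathlib
import Pool.Agent.H25.LD.Gauss

/-! The determinant `det [x + χ(j-k)]` at `x = -1/τ`. -/

namespace Pool.Agent.H25.LD

open Finset Matrix

variable {p : ℕ} [Fact p.Prime]

/-- the matrix `[x + χ(j-k)]` -/
noncomputable def Mx (p : ℕ) [Fact p.Prime] (n : ℕ) (x : ℂ) : Matrix (Fin n) (Fin n) ℂ :=
  Matrix.of fun j k => x + (qc p (((j : ℕ) : ZMod p) - ((k : ℕ) : ZMod p)) : ℂ)

/-- `ψ(r/2)` -/
noncomputable def cc (ψ : AddChar (ZMod p) ℂ) (r : SR p) : ℂ := ψ ((r : ZMod p) * 2⁻¹)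

theorem tau_ne_zero (hp2 : p ≠ 2) {ψ : AddChar (ZMod p) ℂ} (hψ : ψ.IsPrimitive) :
    tau p ψ ≠ 0 := by
  intro h
  have h1 := tau_sq hp2 hψ
  rw [h] at h1
  have h2 : qc p (-1) ^ 2 = 1 := by rw [qc_sq, if_neg (by simp)]
  have h3 : (qc p (-1) : ℂ) ≠ 0 := by
    intro h4
    have h5 : qc p (-1) = 0 := by exact_mod_cast h4
    rw [h5] at h2; norm_num at h2
  have h4 : (p : ℂ) ≠ 0 := by exact_mod_cast (Fact.out : p.Prime).ne_zero
  have h5 := mul_ne_zero h3 h4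
  apply h5
  rw [← h1]; norm_num

theorem entry_eq (hp2 : p ≠ 2) {ψ : AddChar (ZMod p) ℂ} (hψ : ψ.IsPrimitive) {n : ℕ}
    (hn : n ≤ p) (j k : Fin n) :
    (-1 / tau p ψ) + (qc p (((j : ℕ) : ZMod p) - ((k : ℕ) : ZMod p)) : ℂ) =
      (-1 / tau p ψ) * ((if j = k then (p : ℂ) else 0) -
        2 * ∑ r : SR p, ψ ((r : ZMod p) * ((j : ℕ) : ZMod p)) *
          ψ (-((r : ZMod p) * ((k : ℕ) : ZMod p)))) := by
  have hτ := tau_ne_zero hp2 hψ
  have h1 := sum_SR_psi hp2 hψ (((j : ℕ) : ZMod p) - ((k : ℕ) : ZMod p))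
  have h2 : ∑ r : SR p, ψ ((r : ZMod p) * ((j : ℕ) : ZMod p)) *
          ψ (-((r : ZMod p) * ((k : ℕ) : ZMod p))) =
        ∑ x ∈ SR p, ψ (x * (((j : ℕ) : ZMod p) - ((k : ℕ) : ZMod p))) := by
    rw [← Finset.sum_coe_sort (SR p)]
    refine Finset.sum_congr rfl fun r _ => ?_
    rw [← AddChar.map_add_eq_mul]
    congr 1; ring
  have h3 : (if (((j : ℕ) : ZMod p) - ((k : ℕ) : ZMod p)) = 0 then (p : ℂ) else 0) =
      (if j = k then (p : ℂ) else 0) := by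
    have : ((((j : ℕ) : ZMod p) - ((k : ℕ) : ZMod p)) = 0) ↔ j = k := by
      rw [sub_eq_zero, ZMod.natCast_eq_natCast_iff]
      constructor
      · intro h
        have := Nat.ModEq.eq_of_lt_of_lt h (lt_of_lt_of_le j.2 hn) (lt_of_lt_of_le k.2 hn)
        exact Fin.ext this
      · rintro rfl; rfl
    simp only [this]
  rw [h2, h1, h3]
  field_simp
  ring

theorem psi_pow_p (ψ : AddChar (ZMod p) ℂ) (a : ZMod p) : ψ a ^ p = 1 := by
  rw [← AddChar.map_nsmul_eq_pow]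
  simp

theorem psi_ne_zero (ψ : AddChar (ZMod p) ℂ) (a : ZMod p) : ψ a ≠ 0 := by
  intro h
  have := psi_pow_p ψ a
  rw [h, zero_pow (Fact.out : p.Prime).ne_zero] at this
  exact zero_ne_one this

theorem psi_injective {ψ : AddChar (ZMod p) ℂ} (hψ : ψ.IsPrimitive) {a b : ZMod p}
    (h : ψ a = ψ b) : a = b := by
  have h1 : ψ (a - b) = 1 := by
    rw [AddChar.map_sub_eq_div, h, div_self]
    exact psi_ne_zero ψ _
  rw [AddChar.IsPrimitive.zmod_char_eq_one_iff p hψ] at h1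
  exact sub_eq_zero.1 h1

theorem psi_add_ne_zero (hp2 : p ≠ 2) (ψ : AddChar (ZMod p) ℂ) (a b : ZMod p) :
    ψ a + ψ b ≠ 0 := by
  intro h
  have h1 : ψ a = - ψ b := eq_neg_of_add_eq_zero_left h
  have h2 := psi_pow_p ψ a
  have hodd : Odd p := (Fact.out : p.Prime).odd_of_ne_two hp2
  rw [h1, hodd.neg_pow, psi_pow_p] at h2
  norm_num at h2

theorem two_ne_zero' (hp2 : p ≠ 2) : (2 : ZMod p) ≠ 0 := by
  intro h
  have h1 : ((2 : ℕ) : ZMod p) = 0 := by exact_mod_cast h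
  rw [ZMod.natCast_eq_zero_iff] at h1
  exact hp2 ((Nat.prime_dvd_prime_iff_eq Fact.out Nat.prime_two).1 h1)

theorem entry2_eq (hp2 : p ≠ 2) {ψ : AddChar (ZMod p) ℂ} (hψ : ψ.IsPrimitive) {n : ℕ}
    (hn : 2 * n + 3 = p) (r s : SR p) :
    (if r = s then (p : ℂ) else 0) - 2 * ∑ j : Fin n,
      ψ (-((r : ZMod p) * ((j : ℕ) : ZMod p))) * ψ ((s : ZMod p) * ((j : ℕ) : ZMod p)) =
    2 * (cc ψ r) ^ 2 * ((cc ψ r) ^ 2 + cc ψ r * cc ψ s + (cc ψ s) ^ 2) /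
      ((cc ψ s) ^ 3 * (cc ψ r + cc ψ s)) := by
  have h20 := two_ne_zero' (p := p) hp2
  have hr0 : cc ψ r ≠ 0 := psi_ne_zero ψ _
  have hs0 : cc ψ s ≠ 0 := psi_ne_zero ψ _
  have hrs : cc ψ r + cc ψ s ≠ 0 := psi_add_ne_zero hp2 ψ _ _
  obtain ⟨w, hw⟩ : ∃ w, w = cc ψ s / cc ψ r := ⟨_, rfl⟩
  have hw1 : w = ψ (((s : ZMod p) - r) * 2⁻¹) := by
    rw [hw, cc, cc, ← AddChar.map_sub_eq_div]; congr 1; ring
  have hw2 : w ^ 2 = ψ ((s : ZMod p) - r) := by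
    rw [hw1, ← AddChar.map_nsmul_eq_pow]; congr 1
    rw [nsmul_eq_mul]; push_cast; field_simp
  have hwp : w ^ p = 1 := by rw [hw1]; exact psi_pow_p ψ _
  have hw0 : w ≠ 0 := by rw [hw]; exact div_ne_zero hs0 hr0
  have hs : cc ψ s = w * cc ψ r := by rw [hw]; field_simp
  have h1w : 1 + w ≠ 0 := by
    intro h
    apply hrs
    rw [hs]; linear_combination (cc ψ r) * h
  have hterm : ∀ j : Fin n, ψ (-((r : ZMod p) * ((j : ℕ) : ZMod p))) *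
      ψ ((s : ZMod p) * ((j : ℕ) : ZMod p)) = (w ^ 2) ^ (j : ℕ) := by
    intro j
    rw [hw2, ← AddChar.map_nsmul_eq_pow, ← AddChar.map_add_eq_mul]
    congr 1
    rw [nsmul_eq_mul]; ring
  rw [Finset.sum_congr rfl fun j _ => hterm j, Fin.sum_univ_eq_sum_range (fun j => (w ^ 2) ^ j) n]
  have hRHS : 2 * (cc ψ r) ^ 2 * ((cc ψ r) ^ 2 + cc ψ r * cc ψ s + (cc ψ s) ^ 2) /
      ((cc ψ s) ^ 3 * (cc ψ r + cc ψ s)) = 2 * (1 + w + w ^ 2) / (w ^ 3 * (1 + w)) := by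
    rw [hs]
    have : cc ψ r + w * cc ψ r = cc ψ r * (1 + w) := by ring
    rw [this]
    field_simp
  rw [hRHS]
  by_cases hrs' : r = s
  · have hw1' : w = 1 := by rw [hw, hrs']; exact div_self hs0
    rw [if_pos hrs', hw1']
    simp only [one_pow, Finset.sum_const, Finset.card_range, nsmul_eq_mul, mul_one]
    have : (p : ℂ) = 2 * n + 3 := by exact_mod_cast hn.symm
    rw [this]; norm_num
  · rw [if_neg hrs']
    have hne : w ^ 2 ≠ 1 := by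
      intro h
      rw [hw2, AddChar.IsPrimitive.zmod_char_eq_one_iff p hψ, sub_eq_zero] at h
      exact hrs' (Subtype.ext h.symm)
    have hne1 : w - 1 ≠ 0 := by
      intro h
      apply hne
      rw [sub_eq_zero.1 h]; ring
    rw [geom_sum_eq hne]
    have h3 : (w ^ 2) ^ n * w ^ 3 = 1 := by
      rw [← pow_mul, ← pow_add, hn]; exact hwp
    have h4 : (w ^ 2) ^ n = (w ^ 3)⁻¹ := eq_inv_of_mul_eq_one_left h3
    rw [h4]
    have h5 : w ^ 2 - 1 = (w - 1) * (1 + w) := by ring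
    rw [h5]
    field_simp
    ring

/-- Sylvester -/
theorem sylvester {n : ℕ} {ι : Type*} [Fintype ι] [DecidableEq ι] (F : Matrix (Fin n) ι ℂ)
    (G : Matrix ι (Fin n) ℂ) {q : ℂ} (hq : q ≠ 0) :
    q ^ (Fintype.card ι) * (q • (1 : Matrix (Fin n) (Fin n) ℂ) - (2 : ℂ) • (F * G)).det =
      q ^ n * (q • (1 : Matrix ι ι ℂ) - (2 : ℂ) • (G * F)).det := by
  have h1 : q • (1 : Matrix (Fin n) (Fin n) ℂ) - (2 : ℂ) • (F * G) =
      q • (1 - F * ((2 / q) • G)) := by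
    rw [smul_sub, Matrix.mul_smul, smul_smul, mul_div_cancel₀ _ hq]
  have h2 : q • (1 : Matrix ι ι ℂ) - (2 : ℂ) • (G * F) = q • (1 - ((2 / q) • G) * F) := by
    rw [smul_sub, Matrix.smul_mul, smul_smul, mul_div_cancel₀ _ hq]
  rw [h1, h2, Matrix.det_smul, Matrix.det_smul, Matrix.det_one_sub_mul_comm]
  simp
  ring

theorem det_Mx (hp2 : p ≠ 2) {ψ : AddChar (ZMod p) ℂ} (hψ : ψ.IsPrimitive) {n : ℕ}
    (hn : 2 * n + 3 = p) :
    (p : ℂ) * (Mx p n (-1 / tau p ψ)).det = (-1 / tau p ψ) ^ n *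
      ((-1) ^ ((n + 1) * n / 2 + (n + 1)) *
      (1 - 4 * (∑ r : SR p, cc ψ r) * ∑ r : SR p, (cc ψ r)⁻¹) *
      ∏ r : SR p, ∏ s ∈ univ.erase r, ((cc ψ s - cc ψ r) / (cc ψ s + cc ψ r))) := by
  have hpC : (p : ℂ) ≠ 0 := by exact_mod_cast (Fact.out : p.Prime).ne_zero
  have hcard : Fintype.card (SR p) = n + 1 := by
    have h1 := card_SR (p := p) hp2
    rw [Fintype.card_coe]
    omega
  obtain ⟨F, hF⟩ : ∃ F : Matrix (Fin n) (SR p) ℂ, F = Matrix.of fun (j : Fin n) (r : SR p) =>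
    ψ ((r : ZMod p) * ((j : ℕ) : ZMod p)) := ⟨_, rfl⟩
  obtain ⟨G, hG⟩ : ∃ G : Matrix (SR p) (Fin n) ℂ, G = Matrix.of fun (r : SR p) (j : Fin n) =>
    ψ (-((r : ZMod p) * ((j : ℕ) : ZMod p))) := ⟨_, rfl⟩
  have h1 : Mx p n (-1 / tau p ψ) = (-1 / tau p ψ) •
      ((p : ℂ) • (1 : Matrix (Fin n) (Fin n) ℂ) - (2 : ℂ) • (F * G)) := by
    ext j k
    rw [Mx, Matrix.of_apply, entry_eq hp2 hψ (by omega)]
    simp only [Matrix.smul_apply, Matrix.sub_apply, Matrix.mul_apply, Matrix.one_apply,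
      smul_eq_mul, hF, hG, Matrix.of_apply]
    split_ifs <;> ring
  have h2 : (p : ℂ) • (1 : Matrix (SR p) (SR p) ℂ) - (2 : ℂ) • (G * F) =
      Matrix.of (fun r s => 2 * (cc ψ r) ^ 2 * ((cc ψ r) ^ 2 + cc ψ r * cc ψ s + (cc ψ s) ^ 2) /
      ((cc ψ s) ^ 3 * (cc ψ r + cc ψ s))) := by
    ext r s
    rw [Matrix.of_apply, ← entry2_eq hp2 hψ hn]
    simp only [Matrix.smul_apply, Matrix.sub_apply, Matrix.mul_apply, Matrix.one_apply,
      smul_eq_mul, hF, hG, Matrix.of_apply]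
    split_ifs <;> ring
  have hinj : Function.Injective (cc ψ) := by
    intro r s h
    have h3 := psi_injective hψ h
    exact Subtype.ext (mul_right_cancel₀ (inv_ne_zero (two_ne_zero' hp2)) h3)
  have h3 := det_main (cc ψ) hinj (fun i j => psi_add_ne_zero hp2 ψ _ _) (by rw [hcard]; omega)
  rw [← h2, hcard, Nat.add_sub_cancel] at h3
  have h4 := sylvester F G hpC
  rw [hcard, h3] at h4
  have h5 : (p : ℂ) * ((p : ℂ) • (1 : Matrix (Fin n) (Fin n) ℂ) - (2 : ℂ) • (F * G)).det =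
      (-1) ^ ((n + 1) * n / 2 + (n + 1)) *
      (1 - 4 * (∑ r : SR p, cc ψ r) * ∑ r : SR p, (cc ψ r)⁻¹) *
      ∏ r : SR p, ∏ s ∈ univ.erase r, ((cc ψ s - cc ψ r) / (cc ψ s + cc ψ r)) := by
    apply mul_left_cancel₀ (pow_ne_zero n hpC)
    rw [← h4]; ring
  rw [← h5, h1, Matrix.det_smul, Fintype.card_fin]
  ring

end Pool.Agent.H25.LD
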