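import Mathlib
import Pool.Agent.H25.LD.DetMx

/-! Products of `(ψ(d/2) - 1) / (ψ(d/2) + 1)`. -/

namespace Pool.Agent.H25.LD

open Finset Matrix

variable {p : ℕ} [Fact p.Prime]

noncomputable def eta (ψ : AddChar (ZMod p) ℂ) (d : ZMod p) : ℂ :=
  (ψ (d * 2⁻¹) - 1) / (ψ (d * 2⁻¹) + 1)

theorem cc_div (hp2 : p ≠ 2) (ψ : AddChar (ZMod p) ℂ) (r s : SR p) :
    (cc ψ s - cc ψ r) / (cc ψ s + cc ψ r) = eta ψ ((s : ZMod p) - r) := by
  have hr0 : cc ψ r ≠ 0 := psi_ne_zero ψ _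
  have hrs : cc ψ s + cc ψ r ≠ 0 := psi_add_ne_zero hp2 ψ _ _
  have h1 : ψ (((s : ZMod p) - r) * 2⁻¹) = cc ψ s / cc ψ r := by
    rw [cc, cc, ← AddChar.map_sub_eq_div]; congr 1; ring
  unfold eta
  rw [h1]
  have h2 : cc ψ s / cc ψ r + 1 = (cc ψ s + cc ψ r) / cc ψ r := by field_simp
  have h3 : cc ψ s / cc ψ r - 1 = (cc ψ s - cc ψ r) / cc ψ r := by field_simp
  rw [h2, h3, div_div_div_cancel_right₀ hr0]

theorem prod_pairs (g : ZMod p → ℂ) :
    ∏ r : SR p, ∏ s ∈ univ.erase r, g ((s : ZMod p) - r) = ∏ d ∈ univ.erase 0, g d ^ lam p d := by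
  have h1 : ∀ r : SR p, ∏ s ∈ univ.erase r, g ((s : ZMod p) - r) =
      ∏ d ∈ univ.erase (0 : ZMod p), if (r : ZMod p) + d ∈ SR p then g d else 1 := by
    intro r
    rw [← Finset.prod_filter]
    refine Finset.prod_bij (fun s _ => (s : ZMod p) - r) ?_ ?_ ?_ ?_
    · intro s hs
      rw [Finset.mem_filter, Finset.mem_erase]
      refine ⟨⟨?_, Finset.mem_univ _⟩, ?_⟩
      · rw [sub_ne_zero]
        intro h
        exact (Finset.mem_erase.1 hs).1 (Subtype.ext h)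
      · rw [add_sub_cancel]; exact s.2
    · intro a _ b _ h
      exact Subtype.ext (sub_left_injective h)
    · intro d hd
      rw [Finset.mem_filter, Finset.mem_erase] at hd
      refine ⟨⟨(r : ZMod p) + d, hd.2⟩, ?_, by simp⟩
      rw [Finset.mem_erase]
      refine ⟨?_, Finset.mem_univ _⟩
      intro h
      apply hd.1.1
      have := congrArg Subtype.val h
      simpa using this
    · intro a _; rfl
  rw [Finset.prod_congr rfl fun r _ => h1 r, Finset.prod_comm]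
  refine Finset.prod_congr rfl fun d _ => ?_
  rw [Finset.prod_coe_sort (SR p) (fun x => if x + d ∈ SR p then g d else 1),
    ← Finset.prod_filter, Finset.prod_const]
  rfl

theorem isPrimitiveRoot_psi {ψ : AddChar (ZMod p) ℂ} (hψ : ψ.IsPrimitive) :
    IsPrimitiveRoot (ψ 1) p := by
  refine ⟨psi_pow_p ψ 1, fun l hl => ?_⟩
  rw [← AddChar.map_nsmul_eq_pow, AddChar.IsPrimitive.zmod_char_eq_one_iff p hψ] at hl
  rw [nsmul_eq_mul, mul_one] at hl
  exact (ZMod.natCast_eq_zero_iff l p).1 hl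

theorem prod_one_sub_psi {ψ : AddChar (ZMod p) ℂ} (hψ : ψ.IsPrimitive) :
    ∏ d ∈ univ.erase (0 : ZMod p), (1 - ψ d) = p := by
  have hp : 1 ≤ p := (Fact.out : p.Prime).one_le
  have h1 := isPrimitiveRoot_psi hψ
  have h2 : IsPrimitiveRoot (ψ 1) (p - 1 + 1) := by rwa [Nat.sub_add_cancel hp]
  have h3 := IsPrimitiveRoot.prod_one_sub_pow_eq_order h2
  have h4 : (((p - 1 : ℕ) : ℂ) + 1) = p := by
    rw [← Nat.cast_succ, Nat.succ_eq_add_one, Nat.sub_add_cancel hp]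
  rw [← h4, ← h3]
  symm
  refine Finset.prod_bij (fun k _ => ((k + 1 : ℕ) : ZMod p)) ?_ ?_ ?_ ?_
  · intro k hk
    rw [Finset.mem_erase]
    refine ⟨?_, Finset.mem_univ _⟩
    rw [Finset.mem_range] at hk
    intro h
    rw [ZMod.natCast_eq_zero_iff] at h
    have := Nat.le_of_dvd (by omega) h
    omega
  · intro a ha b hb h
    rw [Finset.mem_range] at ha hb
    rw [ZMod.natCast_eq_natCast_iff] at h
    have := Nat.ModEq.eq_of_lt_of_lt h (by omega) (by omega)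
    omega
  · intro d hd
    have hd0 := (Finset.mem_erase.1 hd).1
    have h5 : d.val < p := ZMod.val_lt d
    have h6 : d.val ≠ 0 := by rwa [Ne, ZMod.val_eq_zero]
    refine ⟨d.val - 1, ?_, ?_⟩
    · rw [Finset.mem_range]; omega
    · rw [Nat.sub_add_cancel (by omega)]; exact ZMod.natCast_zmod_val d
  · intro k _
    rw [← AddChar.map_nsmul_eq_pow, nsmul_eq_mul, mul_one]

theorem prod_mul_bij (g : ZMod p → ℂ) {a : ZMod p} (ha : a ≠ 0) :
    ∏ d ∈ univ.erase (0 : ZMod p), g (d * a) = ∏ d ∈ univ.erase (0 : ZMod p), g d := by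
  refine Finset.prod_bij (fun d _ => d * a) ?_ ?_ ?_ ?_
  · intro d hd
    rw [Finset.mem_erase] at hd ⊢
    exact ⟨mul_ne_zero hd.1 ha, Finset.mem_univ _⟩
  · intro b _ c _ h; exact mul_right_cancel₀ ha h
  · intro d hd
    refine ⟨d * a⁻¹, ?_, by field_simp⟩
    rw [Finset.mem_erase] at hd ⊢
    exact ⟨mul_ne_zero hd.1 (inv_ne_zero ha), Finset.mem_univ _⟩
  · intro d _; rfl

theorem prod_one_add_psi (hp2 : p ≠ 2) {ψ : AddChar (ZMod p) ℂ} (hψ : ψ.IsPrimitive) :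
    ∏ d ∈ univ.erase (0 : ZMod p), (1 + ψ d) = 1 := by
  have h1 := prod_one_sub_psi hψ
  have h2 := prod_mul_bij (fun d => 1 - ψ d) (two_ne_zero' (p := p) hp2)
  have h3 : ∏ d ∈ univ.erase (0 : ZMod p), (1 - ψ (d * 2)) =
      (∏ d ∈ univ.erase (0 : ZMod p), (1 - ψ d)) * ∏ d ∈ univ.erase (0 : ZMod p), (1 + ψ d) := by
    rw [← Finset.prod_mul_distrib]
    refine Finset.prod_congr rfl fun d _ => ?_
    have : ψ (d * 2) = ψ d ^ 2 := by
      rw [← AddChar.map_nsmul_eq_pow, nsmul_eq_mul]; congr 1; push_cast; ring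
    rw [this]; ring
  rw [h3, h1] at h2
  have hpC : (p : ℂ) ≠ 0 := by exact_mod_cast (Fact.out : p.Prime).ne_zero
  exact mul_left_cancel₀ hpC (by rw [h2, mul_one])

theorem prod_eta (hp2 : p ≠ 2) {ψ : AddChar (ZMod p) ℂ} (hψ : ψ.IsPrimitive) :
    ∏ d ∈ univ.erase (0 : ZMod p), eta ψ d = p := by
  have h2i : (2⁻¹ : ZMod p) ≠ 0 := inv_ne_zero (two_ne_zero' hp2)
  unfold eta
  rw [prod_mul_bij (fun d => (ψ d - 1) / (ψ d + 1)) h2i, Finset.prod_div_distrib]
  have h1 : ∏ d ∈ univ.erase (0 : ZMod p), (ψ d - 1) = p := by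
    rw [← prod_one_sub_psi hψ]
    have : ∏ d ∈ univ.erase (0 : ZMod p), (ψ d - 1) =
        ∏ d ∈ univ.erase (0 : ZMod p), (-(1 - ψ d)) := by
      refine Finset.prod_congr rfl fun d _ => by ring
    rw [this, Finset.prod_neg, Finset.card_erase_of_mem (Finset.mem_univ _), Finset.card_univ,
      ZMod.card]
    have hodd : Odd p := (Fact.out : p.Prime).odd_of_ne_two hp2
    have heven : Even (p - 1) := by
      obtain ⟨k, hk⟩ := hodd
      exact ⟨k, by omega⟩
    rw [heven.neg_one_pow, one_mul]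
  have h2 : ∏ d ∈ univ.erase (0 : ZMod p), (ψ d + 1) = 1 := by
    exact (Finset.prod_congr rfl fun d _ => add_comm _ _).trans (prod_one_add_psi hp2 hψ)
  rw [h1, h2, div_one]

theorem prod_cc (hp2 : p ≠ 2) (ψ : AddChar (ZMod p) ℂ) :
    ∏ r : SR p, ∏ s ∈ univ.erase r, ((cc ψ s - cc ψ r) / (cc ψ s + cc ψ r)) =
      ∏ d ∈ univ.erase 0, eta ψ d ^ lam p d := by
  rw [← prod_pairs (eta ψ)]
  exact Finset.prod_congr rfl fun r _ => Finset.prod_congr rfl fun s _ => cc_div hp2 ψ r s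

theorem eta_ne_zero (hp2 : p ≠ 2) {ψ : AddChar (ZMod p) ℂ} (hψ : ψ.IsPrimitive) {d : ZMod p}
    (hd : d ≠ 0) : eta ψ d ≠ 0 := by
  have h2i : (2⁻¹ : ZMod p) ≠ 0 := inv_ne_zero (two_ne_zero' hp2)
  unfold eta
  refine div_ne_zero ?_ ?_
  · rw [sub_ne_zero]
    intro h
    rw [AddChar.IsPrimitive.zmod_char_eq_one_iff p hψ] at h
    exact mul_ne_zero hd h2i h
  · have := psi_add_ne_zero hp2 ψ (d * 2⁻¹) 0
    rwa [AddChar.map_zero_eq_one] at this

/-- `p ≡ 3 mod 4` -/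
theorem prod_cc_three {m : ℕ} (hm : p = 4 * m + 3) {ψ : AddChar (ZMod p) ℂ}
    (hψ : ψ.IsPrimitive) :
    ∏ r : SR p, ∏ s ∈ univ.erase r, ((cc ψ s - cc ψ r) / (cc ψ s + cc ψ r)) = (p : ℂ) ^ m := by
  have hp2 : p ≠ 2 := by omega
  rw [prod_cc hp2, ← prod_eta hp2 hψ, ← Finset.prod_pow]
  refine Finset.prod_congr rfl fun d hd => ?_
  have hd0 := (Finset.mem_erase.1 hd).1
  have h1 := four_lam hp2 hd0
  have h2 : qc p (-d) = - qc p d := by
    have : qc p (-1) = -1 := by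
      unfold qc
      rw [quadraticChar_neg_one (by rwa [ZMod.ringChar_zmod_n]), ZMod.card, hm,
        ZMod.χ₄_nat_three_mod_four (by omega)]
    have h3 : qc p (-d) = qc p (-1) * qc p d := by
      unfold qc; rw [← map_mul]; congr 1; ring
    rw [h3, this]; ring
  rw [h2] at h1
  have : lam p d = m := by
    have : (p : ℤ) = 4 * m + 3 := by exact_mod_cast hm
    omega
  rw [this]

theorem qc_neg_of_one {m : ℕ} (hm : p = 4 * m + 1) (d : ZMod p) : qc p (-d) = qc p d := by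
  have hp2 : p ≠ 2 := by omega
  have : qc p (-1) = 1 := by
    unfold qc
    rw [quadraticChar_neg_one (by rwa [ZMod.ringChar_zmod_n]), ZMod.card, hm,
      ZMod.χ₄_nat_one_mod_four (by omega)]
  have h3 : qc p (-d) = qc p (-1) * qc p d := by
    unfold qc; rw [← map_mul]; congr 1; ring
  rw [h3, this]; ring

/-- `p ≡ 1 mod 4` -/
theorem prod_cc_one {m : ℕ} (hm : p = 4 * m + 1) {ψ : AddChar (ZMod p) ℂ}
    (hψ : ψ.IsPrimitive) :
    (∏ r : SR p, ∏ s ∈ univ.erase r, ((cc ψ s - cc ψ r) / (cc ψ s + cc ψ r))) *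
      ∏ d ∈ SR p, eta ψ d = (p : ℂ) ^ m := by
  have hp2 : p ≠ 2 := by omega
  have hm0 : p ≠ 1 := (Fact.out : p.Prime).ne_one
  have h5 : ∏ d ∈ SR p, eta ψ d = ∏ d ∈ univ.erase (0 : ZMod p),
      eta ψ d ^ (if d ∈ SR p then 1 else 0) := by
    have : SR p = (univ.erase (0 : ZMod p)).filter (fun d => d ∈ SR p) := by
      ext d
      simp only [Finset.mem_filter, Finset.mem_erase, Finset.mem_univ, and_true]
      constructor
      · intro h
        refine ⟨?_, h⟩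
        rintro rfl
        rw [mem_SR] at h
        simp [qc] at h
      · exact fun h => h.2
    conv_lhs => rw [this]
    rw [Finset.prod_filter]
    refine Finset.prod_congr rfl fun d _ => ?_
    split_ifs <;> simp
  rw [prod_cc hp2, h5, ← prod_eta hp2 hψ, ← Finset.prod_pow, ← Finset.prod_mul_distrib]
  refine Finset.prod_congr rfl fun d hd => ?_
  have hd0 := (Finset.mem_erase.1 hd).1
  have h1 := four_lam hp2 hd0
  rw [qc_neg_of_one hm] at h1
  rw [← pow_add]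
  congr 1
  have hpz : (p : ℤ) = 4 * m + 1 := by exact_mod_cast hm
  rcases quadraticChar_dichotomy hd0 with h | h
  · have h2 : d ∈ SR p := by rw [mem_SR]; exact h
    rw [if_pos h2]
    have h' : qc p d = 1 := h
    rw [h'] at h1
    omega
  · have h' : qc p d = -1 := h
    have h2 : d ∉ SR p := by rw [mem_SR, h']; norm_num
    rw [if_neg h2]
    rw [h'] at h1
    omega

end Pool.Agent.H25.LD
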