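import Mathlib
import Pool.Agent.H25.LD.Prods
import Pool.Agent.H25.LD.FourParam

/-! Values of `det [x + χ(j-k)]` at `x = ± 1/τ` and the four-parameter determinant. -/

namespace Pool.Agent.H25.LD

open Finset Matrix

variable {p : ℕ} [Fact p.Prime]

theorem two_sum_cc (hp2 : p ≠ 2) {ψ : AddChar (ZMod p) ℂ} (hψ : ψ.IsPrimitive) :
    2 * ∑ r : SR p, cc ψ r = -1 + qc p 2 * tau p ψ := by
  have h := sum_SR_psi hp2 hψ (2⁻¹ : ZMod p)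
  rw [if_neg (inv_ne_zero (two_ne_zero' hp2)), qc_inv] at h
  have h2 : ∑ r : SR p, cc ψ r = ∑ x ∈ SR p, ψ (x * 2⁻¹) := by
    rw [← Finset.sum_coe_sort (SR p)]; rfl
  rw [h2, h]; ring

theorem two_sum_cc_inv (hp2 : p ≠ 2) {ψ : AddChar (ZMod p) ℂ} (hψ : ψ.IsPrimitive) :
    2 * ∑ r : SR p, (cc ψ r)⁻¹ = -1 + qc p (-1) * qc p 2 * tau p ψ := by
  have h := sum_SR_psi hp2 hψ (-2⁻¹ : ZMod p)
  rw [if_neg (neg_ne_zero.2 (inv_ne_zero (two_ne_zero' hp2)))] at h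
  have h3 : qc p (-2⁻¹ : ZMod p) = qc p (-1) * qc p 2 := by
    have : (-2⁻¹ : ZMod p) = (-1) * 2⁻¹ := by ring
    rw [this, ← qc_inv (2 : ZMod p)]
    unfold qc; rw [map_mul]
  have h2 : ∑ r : SR p, (cc ψ r)⁻¹ = ∑ x ∈ SR p, ψ (x * -2⁻¹) := by
    rw [← Finset.sum_coe_sort (SR p)]
    refine Finset.sum_congr rfl fun r _ => ?_
    unfold cc
    rw [← AddChar.map_neg_eq_inv]
    congr 1; ring
  rw [h2, h, h3]; push_cast; ring

theorem qc_neg_one_sq : qc p (-1) ^ 2 = 1 := by rw [qc_sq, if_neg (by simp)]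

theorem qc_two_sq (hp2 : p ≠ 2) : qc p 2 ^ 2 = 1 := by
  rw [qc_sq, if_neg (two_ne_zero' hp2)]

theorem sigma_factor (hp2 : p ≠ 2) {ψ : AddChar (ZMod p) ℂ} (hψ : ψ.IsPrimitive) :
    1 - 4 * (∑ r : SR p, cc ψ r) * ∑ r : SR p, (cc ψ r)⁻¹ =
      qc p 2 * tau p ψ * (1 + qc p (-1)) - p := by
  have h1 := two_sum_cc hp2 hψ
  have h2 := two_sum_cc_inv hp2 hψ
  have h3 := tau_sq hp2 hψ
  have h4 : (qc p (-1) : ℂ) ^ 2 = 1 := by exact_mod_cast qc_neg_one_sq (p := p)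
  have h5 : (qc p 2 : ℂ) ^ 2 = 1 := by exact_mod_cast qc_two_sq (p := p) hp2
  have h6 : 4 * (∑ r : SR p, cc ψ r) * ∑ r : SR p, (cc ψ r)⁻¹ =
      (2 * ∑ r : SR p, cc ψ r) * (2 * ∑ r : SR p, (cc ψ r)⁻¹) := by ring
  rw [h6, h1, h2]
  linear_combination (-(qc p 2 : ℂ) ^ 2 * (qc p (-1) : ℂ)) * h3 + (-(qc p 2 : ℂ) ^ 2 * p) * h4
    - (p : ℂ) * h5

theorem det_Mx_three {m : ℕ} (hm : p = 4 * m + 3) {ψ : AddChar (ZMod p) ℂ}
    (hψ : ψ.IsPrimitive) : (Mx p (2 * m) (-1 / tau p ψ)).det = 1 := by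
  have hp2 : p ≠ 2 := by omega
  have hpC : (p : ℂ) ≠ 0 := by exact_mod_cast (Fact.out : p.Prime).ne_zero
  have hτ := tau_ne_zero hp2 hψ
  have h1 := det_Mx hp2 hψ (n := 2 * m) (by omega)
  have hq : qc p (-1) = -1 := by
    unfold qc
    rw [quadraticChar_neg_one (by rwa [ZMod.ringChar_zmod_n]), ZMod.card, hm,
      ZMod.χ₄_nat_three_mod_four (by omega)]
  have hτ2 := tau_sq hp2 hψ
  rw [sigma_factor hp2 hψ, prod_cc_three hm hψ, hq] at h1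
  rw [hq] at hτ2
  have h2 : (-1 / tau p ψ) ^ (2 * m) = (-1) ^ m * ((p : ℂ) ^ m)⁻¹ := by
    rw [pow_mul, div_pow, hτ2, div_pow]
    push_cast
    rw [neg_one_mul, neg_pow (p : ℂ) m]
    have : ((-1 : ℂ) ^ m) ^ 2 = 1 := by rw [← pow_mul, mul_comm, pow_mul]; simp
    field_simp
    rw [this]; norm_num
  have h3 : (-1 : ℂ) ^ ((2 * m + 1) * (2 * m) / 2 + (2 * m + 1)) = - (-1) ^ m := by
    have e1 : (2 * m + 1) * (2 * m) / 2 = (2 * m + 1) * m := by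
      rw [show (2 * m + 1) * (2 * m) = 2 * ((2 * m + 1) * m) by ring]
      exact Nat.mul_div_cancel_left _ (by norm_num)
    rw [e1]
    have e2 : (2 * m + 1) * m + (2 * m + 1) = 2 * (m * m + m) + (m + 1) := by ring
    rw [e2, pow_add, pow_mul]
    simp
    ring
  rw [h2, h3] at h1
  have h4 : ((-1 : ℂ) ^ m) ^ 2 = 1 := by rw [← pow_mul, mul_comm, pow_mul]; simp
  apply mul_left_cancel₀ hpC
  rw [h1]
  push_cast
  field_simp
  rw [h4]; ring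

theorem det_Mx_one {m : ℕ} (hm : p = 4 * m + 1) {ψ : AddChar (ZMod p) ℂ}
    (hψ : ψ.IsPrimitive) : (Mx p (2 * m - 1) (-1 / tau p ψ)).det * ∏ d ∈ SR p, eta ψ d =
      (-1) ^ m * (tau p ψ - 2 * qc p 2) := by
  have hp2 : p ≠ 2 := by omega
  have hp1 : p ≠ 1 := (Fact.out : p.Prime).ne_one
  have hpC : (p : ℂ) ≠ 0 := by exact_mod_cast (Fact.out : p.Prime).ne_zero
  have hτ := tau_ne_zero hp2 hψ
  obtain ⟨k, hk⟩ : ∃ k, m = k + 1 := ⟨m - 1, by omega⟩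
  have hn : 2 * m - 1 = 2 * k + 1 := by omega
  have h1 := det_Mx hp2 hψ (n := 2 * k + 1) (by omega)
  have hq : qc p (-1) = 1 := by
    have := qc_neg_of_one hm 1
    rw [this]; simp [qc]
  have hτ2 := tau_sq hp2 hψ
  have hP := prod_cc_one hm hψ
  rw [sigma_factor hp2 hψ, hq] at h1
  rw [hq] at hτ2
  have h2 : (-1 / tau p ψ) ^ (2 * k + 1) = - (tau p ψ) * ((p : ℂ) ^ m)⁻¹ := by
    rw [pow_succ, pow_mul, div_pow, hτ2, hk, div_pow]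
    push_cast
    have e : (tau p ψ)⁻¹ = tau p ψ / p := by
      field_simp
      rw [hτ2]; push_cast; ring
    rw [div_eq_mul_inv (-1 : ℂ) (tau p ψ), e]
    field_simp
    ring
  have h3 : (-1 : ℂ) ^ ((2 * k + 1 + 1) * (2 * k + 1) / 2 + (2 * k + 1 + 1)) = (-1) ^ m := by
    have e1 : (2 * k + 1 + 1) * (2 * k + 1) / 2 = (k + 1) * (2 * k + 1) := by
      rw [show (2 * k + 1 + 1) * (2 * k + 1) = 2 * ((k + 1) * (2 * k + 1)) by ring]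
      exact Nat.mul_div_cancel_left _ (by norm_num)
    rw [e1]
    have e2 : (k + 1) * (2 * k + 1) + (2 * k + 1 + 1) = 2 * (k * (k + 1) + k + 1) + (k + 1) := by
      ring
    rw [e2, pow_add, pow_mul, hk]
    simp
  rw [h2, h3] at h1
  obtain ⟨P, hPdef⟩ : ∃ P, P = ∏ r : SR p, ∏ s ∈ univ.erase r,
    ((cc ψ s - cc ψ r) / (cc ψ s + cc ψ r)) := ⟨_, rfl⟩
  obtain ⟨E, hE⟩ : ∃ E, E = ∏ d ∈ SR p, eta ψ d := ⟨_, rfl⟩
  rw [← hPdef] at h1 hP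
  rw [← hE] at hP ⊢
  rw [hn]
  have hpm : (p : ℂ) ^ m ≠ 0 := pow_ne_zero _ hpC
  have hτ3 : tau p ψ * tau p ψ = p := by rw [← pow_two, hτ2]; push_cast; ring
  apply mul_left_cancel₀ hpC
  calc (p : ℂ) * ((Mx p (2 * k + 1) (-1 / tau p ψ)).det * E)
      = ((p : ℂ) * (Mx p (2 * k + 1) (-1 / tau p ψ)).det) * E := by ring
    _ = (-tau p ψ * ((p : ℂ) ^ m)⁻¹ * ((-1) ^ m *
          (qc p 2 * tau p ψ * (1 + ((1 : ℤ) : ℂ)) - p) * P)) * E := by rw [h1]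
    _ = -tau p ψ * ((p : ℂ) ^ m)⁻¹ * ((-1) ^ m *
          (qc p 2 * tau p ψ * (1 + ((1 : ℤ) : ℂ)) - p)) * (P * E) := by ring
    _ = -tau p ψ * ((-1) ^ m * (qc p 2 * tau p ψ * (1 + ((1 : ℤ) : ℂ)) - p)) := by
        rw [hP]; field_simp
    _ = _ := by
        push_cast
        linear_combination (-(2 : ℂ) * (-1) ^ m * qc p 2) * hτ3

end Pool.Agent.H25.LD
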