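import Mathlib
import Pool.Agent.H25.LD.DetVal

/-! Part I: the four-parameter determinant in terms of cyclotomic products. -/

namespace Pool.Agent.H25.LD

open Finset Matrix

variable {p : ℕ} [Fact p.Prime]

/-- integer matrix `[χ(j-k)]` -/
def Lm (p : ℕ) [Fact p.Prime] (n : ℕ) : Matrix (Fin n) (Fin n) ℤ :=
  Matrix.of fun j k => qc p (((j : ℕ) : ZMod p) - ((k : ℕ) : ZMod p))

/-- nonresidues -/
def ST (p : ℕ) [Fact p.Prime] : Finset (ZMod p) := univ.filter (fun x => qc p x = -1)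

theorem mem_ST {x : ZMod p} : x ∈ ST p ↔ qc p x = -1 := by simp [ST]

theorem exists_nonres (hp2 : p ≠ 2) : ∃ g : ZMod p, qc p g = -1 :=
  quadraticChar_exists_neg_one (by rwa [ZMod.ringChar_zmod_n])

theorem ne_zero_of_qc {g : ZMod p} (hg : qc p g = -1) : g ≠ 0 := by
  rintro rfl; simp [qc] at hg

theorem mulShift_primitive {ψ : AddChar (ZMod p) ℂ} (hψ : ψ.IsPrimitive) {g : ZMod p}
    (hg : g ≠ 0) : (ψ.mulShift g).IsPrimitive := by
  intro a ha
  have : (ψ.mulShift g).mulShift a = ψ.mulShift (g * a) := by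
    ext x; simp [AddChar.mulShift_apply, mul_assoc]
  rw [this]
  exact hψ (mul_ne_zero hg ha)

theorem tau_mulShift (hp2 : p ≠ 2) {ψ : AddChar (ZMod p) ℂ} {g : ZMod p}
    (hg : qc p g = -1) : tau p (ψ.mulShift g) = - tau p ψ := by
  have h := sum_qc_psi hp2 ψ g
  rw [hg] at h
  unfold tau at *
  simp only [AddChar.mulShift_apply]
  push_cast at h
  rw [neg_one_mul] at h
  rw [← h]
  exact Finset.sum_congr rfl fun x _ => by rw [mul_comm g x]

theorem prod_eta_mulShift {ψ : AddChar (ZMod p) ℂ} {g : ZMod p} (hg : qc p g = -1) :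
    ∏ d ∈ SR p, eta (ψ.mulShift g) d = ∏ d ∈ ST p, eta ψ d := by
  have hg0 := ne_zero_of_qc hg
  have hmul : ∀ x, qc p (g * x) = - qc p x := by
    intro x
    have : qc p (g * x) = qc p g * qc p x := by unfold qc; rw [map_mul]
    rw [this, hg]; ring
  refine Finset.prod_bij (fun d _ => g * d) ?_ ?_ ?_ ?_
  · intro d hd
    rw [mem_SR] at hd
    rw [mem_ST, hmul, hd]
  · intro a _ b _ h; exact mul_left_cancel₀ hg0 h
  · intro d hd
    rw [mem_ST] at hd
    refine ⟨g⁻¹ * d, ?_, by field_simp⟩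
    rw [mem_SR]
    have := hmul (g⁻¹ * d)
    rw [show g * (g⁻¹ * d) = d by field_simp, hd] at this
    omega
  · intro d _
    unfold eta
    simp only [AddChar.mulShift_apply, mul_assoc]

theorem det_Mx_eq (n : ℕ) (x : ℂ) :
    (Mx p (n + 1) x).det = (((Lm p (n + 1)).det : ℤ) : ℂ) + x * ((cOne (Lm p (n + 1)) : ℤ) : ℂ) := by
  have h := det_add_const ((Lm p (n + 1)).map (Int.castRingHom ℂ)) x
  rw [cOne_map] at h
  have h1 : ((Lm p (n + 1)).map (Int.castRingHom ℂ)).det = (((Lm p (n + 1)).det : ℤ) : ℂ) :=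
    (RingHom.map_det (Int.castRingHom ℂ) (Lm p (n + 1))).symm
  rw [h1] at h
  exact h

/-- the matrix in the problem -/
noncomputable def DM (p : ℕ) [Fact p.Prime] (n : ℕ) (x y z w : ℂ) : Matrix (Fin n) (Fin n) ℂ :=
  Matrix.of fun j k => x + (qc p (((j : ℕ) : ZMod p) - ((k : ℕ) : ZMod p)) : ℂ) +
    (qc p ((j : ℕ) : ZMod p) : ℂ) * y + (qc p ((k : ℕ) : ZMod p) : ℂ) * z +
    (qc p (((j : ℕ) : ZMod p) * ((k : ℕ) : ZMod p)) : ℂ) * w

theorem det_DM_eq (n : ℕ) (x y z w : ℂ) :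
    (DM p (n + 1) x y z w).det = (((Lm p (n + 1)).det : ℤ) : ℂ) *
      ((1 + y) * (1 + qc p (-1) * z) - qc p (-1) * w * x) +
      x * ((cOne (Lm p (n + 1)) : ℤ) : ℂ) := by
  have h := four_param ((Lm p (n + 1)).map (Int.castRingHom ℂ))
    (fun j => (qc p ((j : ℕ) : ZMod p) : ℂ)) (qc p (-1) : ℂ)
    (fun j => by simp [Lm]) (fun k => by
      have h1 : qc p (((k : ℕ) : ZMod p)) = qc p (-1) * qc p (0 - ((k : ℕ) : ZMod p)) := by
        unfold qc; rw [← map_mul]; congr 1; ring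
      simp only [Lm, Matrix.map_apply, Matrix.of_apply, Fin.val_zero, Nat.cast_zero]
      rw [h1]; push_cast; simp)
    (by simp [Lm, qc]) x y z w
  rw [cOne_map] at h
  have h1 : ((Lm p (n + 1)).map (Int.castRingHom ℂ)).det = (((Lm p (n + 1)).det : ℤ) : ℂ) :=
    (RingHom.map_det (Int.castRingHom ℂ) (Lm p (n + 1))).symm
  rw [h1] at h
  rw [← sub_eq_zero] at h ⊢
  rw [← h]
  congr 2
  ext j k
  have h2 : qc p (((j : ℕ) : ZMod p) * ((k : ℕ) : ZMod p)) =
      qc p ((j : ℕ) : ZMod p) * qc p ((k : ℕ) : ZMod p) := by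
    unfold qc; rw [map_mul]
  simp only [DM, Matrix.of_apply, Lm, Matrix.map_apply]
  rw [h2]
  push_cast
  rfl

theorem part_three (hp : p % 4 = 3) (hp5 : 5 ≤ p) (x y z w : ℂ) :
    (DM p ((p - 3) / 2) x y z w).det = w * x + (1 + y) * (1 - z) := by
  have hp2 : p ≠ 2 := by omega
  obtain ⟨m, hm⟩ : ∃ m, p = 4 * m + 3 := ⟨p / 4, by omega⟩
  obtain ⟨ψ, hψ⟩ : ∃ ψ : AddChar (ZMod p) ℂ, ψ.IsPrimitive := by
    have h := Complex.isPrimitiveRoot_exp p (Fact.out : p.Prime).ne_zero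
    exact ⟨_, AddChar.zmodChar_primitive_of_primitive_root p h⟩
  obtain ⟨g, hg⟩ := exists_nonres (p := p) hp2
  have hn : (p - 3) / 2 = (2 * m - 1) + 1 := by omega
  have hn' : 2 * m = (2 * m - 1) + 1 := by omega
  have h1 := det_Mx_three hm hψ
  have h2 := det_Mx_three hm (mulShift_primitive hψ (ne_zero_of_qc hg))
  rw [tau_mulShift hp2 hg] at h2
  rw [hn', det_Mx_eq] at h1 h2
  rw [hn, det_DM_eq]
  have hτ := tau_ne_zero hp2 hψ
  have hq : qc p (-1) = -1 := by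
    unfold qc
    rw [quadraticChar_neg_one (by rwa [ZMod.ringChar_zmod_n]), ZMod.card, hm,
      ZMod.χ₄_nat_three_mod_four (by omega)]
  have h3 : ((cOne (Lm p (2 * m - 1 + 1)) : ℤ) : ℂ) = 0 := by
    have : (-1 / tau p ψ) * ((cOne (Lm p (2 * m - 1 + 1)) : ℤ) : ℂ) =
      (-1 / -tau p ψ) * ((cOne (Lm p (2 * m - 1 + 1)) : ℤ) : ℂ) := by linear_combination h1 - h2
    field_simp at this
    have h5 : (2 : ℂ) * ((cOne (Lm p (2 * m - 1 + 1)) : ℤ) : ℂ) = 0 := by linear_combination -this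
    simpa using h5
  rw [h3] at h1 ⊢
  have h4 : ((Lm p (2 * m - 1 + 1)).det : ℂ) = 1 := by linear_combination h1
  rw [h4, hq]
  push_cast
  ring

theorem qc_two {m : ℕ} (hm : p = 4 * m + 1) : qc p 2 = (-1) ^ m := by
  have hp2 : p ≠ 2 := by omega
  have h := quadraticChar_two (F := ZMod p) (by rwa [ZMod.ringChar_zmod_n])
  unfold qc
  rw [h, ZMod.card]
  rcases Nat.even_or_odd' m with ⟨k, hk | hk⟩
  · have : ((p : ℕ) : ZMod 8) = 1 := by
      rw [hm, hk]; push_cast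
      have : ((8 : ℕ) : ZMod 8) = 0 := ZMod.natCast_self 8
      push_cast at this
      linear_combination (k : ZMod 8) * this
    rw [this, hk, pow_mul]; simp
  · have : ((p : ℕ) : ZMod 8) = 5 := by
      rw [hm, hk]; push_cast
      have : ((8 : ℕ) : ZMod 8) = 0 := ZMod.natCast_self 8
      push_cast at this
      linear_combination (k : ZMod 8) * this
    rw [this, hk, pow_succ, pow_mul]
    simp

theorem part_one (hp : p % 4 = 1) {ψ : AddChar (ZMod p) ℂ} (hψ : ψ.IsPrimitive) :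
    ∃ a b : ℚ, ((a : ℂ) + b * tau p ψ = tau p ψ *
      (if qc p 2 = 1 then (∏ d ∈ SR p, eta ψ d)⁻¹ else (∏ d ∈ ST p, eta ψ d)⁻¹)) ∧
      ∀ x y z w : ℂ, (DM p ((p - 3) / 2) x y z w).det =
        qc p 2 * (2 * a - p * b) * x + (a - 2 * b) * ((1 + y) * (1 + z) - w * x) := by
  have hp2 : p ≠ 2 := by omega
  have hp1 : p ≠ 1 := (Fact.out : p.Prime).ne_one
  have hpC : (p : ℂ) ≠ 0 := by exact_mod_cast (Fact.out : p.Prime).ne_zero
  obtain ⟨m, hm⟩ : ∃ m, p = 4 * m + 1 := ⟨p / 4, by omega⟩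
  obtain ⟨g, hg⟩ := exists_nonres (p := p) hp2
  have hn : (p - 3) / 2 = (2 * m - 2) + 1 := by omega
  have hn' : 2 * m - 1 = (2 * m - 2) + 1 := by omega
  have h1 := det_Mx_one hm hψ
  have h2 := det_Mx_one hm (mulShift_primitive hψ (ne_zero_of_qc hg))
  rw [tau_mulShift hp2 hg, prod_eta_mulShift hg] at h2
  rw [hn', det_Mx_eq] at h1 h2
  have hτ := tau_ne_zero hp2 hψ
  have hq1 : qc p (-1) = 1 := by
    have := qc_neg_of_one hm 1
    rw [this]; simp [qc]
  have hτ2 := tau_sq hp2 hψ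
  rw [hq1] at hτ2
  push_cast at hτ2
  rw [one_mul] at hτ2
  have hq2 := qc_two hm
  obtain ⟨q, hq⟩ : ∃ q, q = qc p 2 := ⟨_, rfl⟩
  have hqm : ((-1 : ℂ) ^ m) = (q : ℂ) := by rw [hq, hq2]; push_cast; rfl
  have hqq : (q : ℂ) ^ 2 = 1 := by rw [← hqm, ← pow_mul, mul_comm, pow_mul]; simp
  rw [hqm] at h1 h2
  rw [← hq] at h1 h2 ⊢
  obtain ⟨A, hA⟩ : ∃ A, A = (Lm p (2 * m - 2 + 1)).det := ⟨_, rfl⟩
  obtain ⟨B, hB⟩ : ∃ B, B = cOne (Lm p (2 * m - 2 + 1)) := ⟨_, rfl⟩
  obtain ⟨E1, hE1⟩ : ∃ E1, E1 = ∏ d ∈ SR p, eta ψ d := ⟨_, rfl⟩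
  obtain ⟨E2, hE2⟩ : ∃ E2, E2 = ∏ d ∈ ST p, eta ψ d := ⟨_, rfl⟩
  obtain ⟨t, ht⟩ : ∃ t, t = tau p ψ := ⟨_, rfl⟩
  rw [← hA, ← hB, ← hE1, ← ht] at h1
  rw [← hA, ← hB, ← hE2, ← ht] at h2
  rw [← ht] at hτ hτ2 ⊢
  rw [← hE1, ← hE2]
  have hE10 : E1 ≠ 0 := by
    rw [hE1]
    refine Finset.prod_ne_zero_iff.2 fun d hd => eta_ne_zero hp2 hψ ?_
    rintro rfl
    rw [mem_SR] at hd; simp [qc] at hd
  have hE20 : E2 ≠ 0 := by
    rw [hE2]
    refine Finset.prod_ne_zero_iff.2 fun d hd => eta_ne_zero hp2 hψ ?_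
    rintro rfl
    rw [mem_ST] at hd; simp [qc] at hd
  have hp4 : (p : ℚ) - 4 ≠ 0 := by
    have : (p : ℚ) ≠ 4 := by
      have : p ≠ 4 := by rw [hm]; omega
      exact_mod_cast this
    exact sub_ne_zero.2 this
  have hp4C : (p : ℂ) - 4 ≠ 0 := by exact_mod_cast hp4
  obtain ⟨b, hb⟩ : ∃ b : ℚ, b = (2 * A - q * B) / (p - 4) := ⟨_, rfl⟩
  obtain ⟨a, ha⟩ : ∃ a : ℚ, a = A + 2 * b := ⟨_, rfl⟩
  have hA' : (A : ℂ) = a - 2 * b := by
    have : (A : ℚ) = a - 2 * b := by rw [ha]; ring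
    exact_mod_cast congrArg (Rat.cast : ℚ → ℂ) this
  have hqqQ : (q : ℚ) ^ 2 = 1 := by
    have : (q : ℤ) ^ 2 = 1 := by exact_mod_cast hqq
    exact_mod_cast this
  have hB' : (B : ℂ) = q * (2 * a - p * b) := by
    have : (B : ℚ) = q * (2 * a - p * b) := by
      have e1 : (p - 4 : ℚ) * b = 2 * A - q * B := by rw [hb]; field_simp
      rw [ha]
      linear_combination q * e1 - (B : ℚ) * hqqQ
    exact_mod_cast congrArg (Rat.cast : ℚ → ℂ) this
  refine ⟨a, b, ?_, ?_⟩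
  · rw [hA', hB'] at h1 h2
    -- factor
    have f1 : (a : ℂ) - 2 * b + -1 / t * (q * (2 * a - p * b)) =
        (t - 2 * q) * ((q * t * b + a) / t) := by
      field_simp
      linear_combination (-(b : ℂ) * q) * hτ2 + 2 * b * t * hqq
    have f2 : (a : ℂ) - 2 * b + -1 / -t * (q * (2 * a - p * b)) =
        (- t - 2 * q) * ((q * t * b - a) / t) := by
      field_simp
      linear_combination ((b : ℂ) * q) * hτ2 + 2 * b * t * hqq
    rw [f1] at h1
    rw [f2] at h2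
    have g1 : t - 2 * q ≠ 0 := by
      intro h
      apply hp4C
      have : t = 2 * q := sub_eq_zero.1 h
      rw [← hτ2, this]
      linear_combination 4 * hqq
    have g2 : -t - 2 * q ≠ 0 := by
      intro h
      apply hp4C
      have : t = -(2 * q) := by linear_combination -h
      rw [← hτ2, this]
      linear_combination 4 * hqq
    have k1 : (q * t * b + a) / t * E1 = q := by
      apply mul_left_cancel₀ g1
      linear_combination h1
    have k2 : (q * t * b - a) / t * E2 = q := by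
      apply mul_left_cancel₀ g2
      linear_combination h2
    split_ifs with hc
    · rw [hc] at k1
      push_cast at k1
      field_simp at k1 ⊢
      linear_combination k1
    · have hc' : q = -1 := by
        have h7 : (q - 1) * (q + 1) = 0 := by
          have : (q : ℤ) ^ 2 = 1 := by exact_mod_cast hqq
          linear_combination this
        rcases mul_eq_zero.1 h7 with h | h
        · exact absurd (by omega) hc
        · omega
      rw [hc'] at k2
      push_cast at k2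
      field_simp at k2 ⊢
      linear_combination -k2
  · intro x y z w
    rw [hn, det_DM_eq, ← hA, ← hB, hA', hB', hq1]
    push_cast
    ring

end Pool.Agent.H25.LD
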