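import Mathlib
import Pool.Agent.H25.LD.PartOne

/-! Module C: `L(1,χ)` in finite form. -/

open Filter Topology Finset

namespace Pool.Agent.H25.LD

/-- partial sums -/
def pS (f : ℕ → ℝ) (n : ℕ) : ℝ := ∑ k ∈ Finset.range n, f k

theorem abel_parts (f g : ℕ → ℝ) (N : ℕ) :
    ∑ n ∈ Finset.range N, f n * g n = pS f N * g N +
      ∑ n ∈ Finset.range N, pS f (n + 1) * (g n - g (n + 1)) := by
  induction N with
  | zero => simp [pS]
  | succ N ih =>
    rw [Finset.sum_range_succ, ih, Finset.sum_range_succ]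
    have : pS f (N + 1) = pS f N + f N := by simp [pS, Finset.sum_range_succ]
    rw [this]; ring

/-- the terms after summation by parts -/
noncomputable def tm (f : ℕ → ℝ) (s : ℝ) (n : ℕ) : ℝ :=
  pS f (n + 1) * ((n : ℝ) ^ (-s) - ((n + 1 : ℕ) : ℝ) ^ (-s))

theorem diff_bound {s : ℝ} (h1 : 1 ≤ s) (h2 : s ≤ 2) {n : ℕ} (hn : 1 ≤ n) :
    0 ≤ (n : ℝ) ^ (-s) - ((n + 1 : ℕ) : ℝ) ^ (-s) ∧
    (n : ℝ) ^ (-s) - ((n + 1 : ℕ) : ℝ) ^ (-s) ≤ 2 / ((n : ℝ) ^ 2) := by
  have hn0 : (0 : ℝ) < n := by exact_mod_cast hn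
  have hn1 : (0 : ℝ) < ((n + 1 : ℕ) : ℝ) := by positivity
  obtain ⟨x, hx⟩ : ∃ x : ℝ, x = (n : ℝ) / ((n + 1 : ℕ) : ℝ) := ⟨_, rfl⟩
  have hx0 : 0 < x := by rw [hx]; positivity
  have hx1 : x ≤ 1 := by
    rw [hx, div_le_one hn1]; push_cast; linarith
  have e1 : ((n + 1 : ℕ) : ℝ) ^ (-s) = (n : ℝ) ^ (-s) * x ^ s := by
    rw [hx, Real.div_rpow hn0.le hn1.le, Real.rpow_neg hn0.le, Real.rpow_neg hn1.le]
    have := (Real.rpow_pos_of_pos hn0 s).ne'
    field_simp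
  have e2 : (n : ℝ) ^ (-s) - ((n + 1 : ℕ) : ℝ) ^ (-s) = (n : ℝ) ^ (-s) * (1 - x ^ s) := by
    rw [e1]; ring
  rw [e2]
  have hp : 0 < (n : ℝ) ^ (-s) := Real.rpow_pos_of_pos hn0 _
  have hxs : x ^ s ≤ 1 := Real.rpow_le_one hx0.le hx1 (by linarith)
  have hxs2 : x ^ (2 : ℝ) ≤ x ^ s := Real.rpow_le_rpow_of_exponent_ge hx0 hx1 h2
  have hx2 : x ^ (2 : ℝ) = x ^ 2 := by
    rw [← Real.rpow_natCast]; norm_num
  constructor
  · exact mul_nonneg hp.le (by linarith)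
  · have h3 : (n : ℝ) ^ (-s) ≤ (n : ℝ)⁻¹ := by
      rw [← Real.rpow_neg_one]
      exact Real.rpow_le_rpow_of_exponent_le (by exact_mod_cast hn) (by linarith)
    have h4 : 1 - x ^ s ≤ 2 * (1 - x) := by
      rw [hx2] at hxs2
      nlinarith [sq_nonneg (1 - x)]
    have h5 : 1 - x = ((n + 1 : ℕ) : ℝ)⁻¹ := by
      rw [hx]; field_simp; push_cast; ring
    have h6 : 1 - x ≤ (n : ℝ)⁻¹ := by
      rw [h5]
      exact inv_anti₀ hn0 (by push_cast; linarith)
    have h7 : 0 ≤ 1 - x := by linarith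
    calc (n : ℝ) ^ (-s) * (1 - x ^ s) ≤ (n : ℝ)⁻¹ * (2 * (n : ℝ)⁻¹) := by
          apply mul_le_mul h3 (by linarith) (by linarith) (by positivity)
      _ = 2 / ((n : ℝ) ^ 2) := by field_simp

theorem tm_bound {f : ℕ → ℝ} {B : ℝ} (hB : ∀ n, |pS f n| ≤ B) (hf0 : f 0 = 0) {s : ℝ}
    (h1 : 1 ≤ s) (h2 : s ≤ 2) (n : ℕ) : ‖tm f s n‖ ≤ B * (2 / ((n : ℝ) ^ 2)) := by
  have hB0 : 0 ≤ B := le_trans (abs_nonneg _) (hB 0)
  rcases Nat.eq_zero_or_pos n with h | h
  · subst h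
    have : pS f (0 + 1) = 0 := by simp [pS, hf0]
    unfold tm
    rw [this]; simp
  · obtain ⟨h3, h4⟩ := diff_bound h1 h2 h
    unfold tm
    rw [Real.norm_eq_abs, abs_mul, abs_of_nonneg h3]
    exact mul_le_mul (hB _) h4 h3 hB0

theorem summable_bd (B : ℝ) : Summable (fun n : ℕ => B * (2 / ((n : ℝ) ^ 2))) := by
  apply Summable.mul_left
  simp_rw [div_eq_mul_inv]
  apply Summable.mul_left
  exact Real.summable_nat_pow_inv.2 (by norm_num)

theorem partial_tendsto {f : ℕ → ℝ} {B : ℝ} (hB : ∀ n, |pS f n| ≤ B) (hf0 : f 0 = 0) {s : ℝ}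
    (h1 : 1 ≤ s) (h2 : s ≤ 2) :
    Tendsto (fun N => ∑ n ∈ Finset.range N, f n * (n : ℝ) ^ (-s)) atTop
      (𝓝 (∑' n, tm f s n)) := by
  have hsum : Summable (tm f s) :=
    Summable.of_norm_bounded (summable_bd B) (fun n => tm_bound hB hf0 h1 h2 n)
  have e1 := hsum.hasSum.tendsto_sum_nat
  have e2 : Tendsto (fun N : ℕ => pS f N * (N : ℝ) ^ (-s)) atTop (𝓝 0) := by
    have e3 : Tendsto (fun N : ℕ => (N : ℝ) ^ (-s)) atTop (𝓝 0) :=
      (tendsto_rpow_neg_atTop (by linarith)).comp tendsto_natCast_atTop_atTop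
    refine Filter.Tendsto.zero_mul_isBoundedUnder_le (f := fun N : ℕ => (N : ℝ) ^ (-s))
      (g := fun N => pS f N) e3 ?_ |>.congr (fun N => mul_comm _ _)
    exact ⟨B, Filter.eventually_map.2 (Filter.Eventually.of_forall fun n => by
      simpa using hB n)⟩
  have e3 := e2.add e1
  rw [zero_add] at e3
  refine e3.congr fun N => ?_
  rw [abel_parts f (fun n => (n : ℝ) ^ (-s)) N]
  rfl

theorem tsum_tm_tendsto {f : ℕ → ℝ} {B : ℝ} (hB : ∀ n, |pS f n| ≤ B) (hf0 : f 0 = 0) :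
    Tendsto (fun s : ℝ => ∑' n, tm f s n) (𝓝[>] 1) (𝓝 (∑' n, tm f 1 n)) := by
  refine tendsto_tsum_of_dominated_convergence (summable_bd B) ?_ ?_
  · intro n
    unfold tm
    apply Tendsto.mul tendsto_const_nhds
    rcases Nat.eq_zero_or_pos n with h | h
    · subst h
      apply Tendsto.sub
      · refine Tendsto.congr' ?_ tendsto_const_nhds
        filter_upwards [self_mem_nhdsWithin] with s hs
        have hs' : (1 : ℝ) < s := hs
        simp only [Nat.cast_zero]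
        rw [Real.zero_rpow (by linarith), Real.zero_rpow (neg_ne_zero.2 (by linarith))]
      · simp
    · have hn0 : (0 : ℝ) < n := by exact_mod_cast h
      apply Tendsto.sub
      · have : ContinuousAt (fun s : ℝ => (n : ℝ) ^ (-s)) 1 :=
          ContinuousAt.rpow continuousAt_const continuousAt_neg (Or.inl hn0.ne')
        exact this.tendsto.mono_left nhdsWithin_le_nhds
      · have hn1 : ((n + 1 : ℕ) : ℝ) ≠ 0 := by positivity
        have : ContinuousAt (fun s : ℝ => ((n + 1 : ℕ) : ℝ) ^ (-s)) 1 :=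
          ContinuousAt.rpow continuousAt_const continuousAt_neg (Or.inl hn1)
        exact this.tendsto.mono_left nhdsWithin_le_nhds
  · have h2 : ∀ᶠ s : ℝ in 𝓝[>] 1, s < 2 :=
      (eventually_lt_nhds (by norm_num : (1 : ℝ) < 2)).filter_mono nhdsWithin_le_nhds
    filter_upwards [self_mem_nhdsWithin, h2] with s hs hs2 n
    exact tm_bound hB hf0 (le_of_lt hs) hs2.le n

theorem LSeries_eq_tsum_tm {f : ℕ → ℝ} {B : ℝ} (hB : ∀ n, |pS f n| ≤ B) (hf0 : f 0 = 0)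
    (hf1 : ∀ n, |f n| ≤ 1) {s : ℝ} (h1 : 1 < s) (h2 : s ≤ 2) :
    LSeries (fun n => (f n : ℂ)) s = ((∑' n, tm f s n : ℝ) : ℂ) := by
  have hs' : 1 < (s : ℂ).re := by simpa using h1
  have hsum : LSeriesSummable (fun n => (f n : ℂ)) s :=
    LSeriesSummable_of_bounded_of_one_lt_re (m := 1) (fun n _ => by simpa using hf1 n) hs'
  have e1 : Tendsto (fun N => ∑ n ∈ Finset.range N, LSeries.term (fun n => (f n : ℂ)) s n) atTop
      (𝓝 (LSeries (fun n => (f n : ℂ)) s)) := hsum.hasSum.tendsto_sum_nat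
  have e2 := partial_tendsto hB hf0 h1.le h2
  have e3 : Tendsto (fun N => ((∑ n ∈ Finset.range N, f n * (n : ℝ) ^ (-s) : ℝ) : ℂ)) atTop
      (𝓝 ((∑' n, tm f s n : ℝ) : ℂ)) := (Complex.continuous_ofReal.tendsto _).comp e2
  refine tendsto_nhds_unique e1 (e3.congr fun N => ?_)
  push_cast
  refine Finset.sum_congr rfl fun n _ => ?_
  rw [LSeries.term_def₀ (by simp [hf0])]
  congr 1
  rw [Complex.ofReal_cpow (Nat.cast_nonneg n)]
  push_cast
  rfl

theorem LSeries_tendsto {f : ℕ → ℝ} {B : ℝ} (hB : ∀ n, |pS f n| ≤ B) (hf0 : f 0 = 0)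
    (hf1 : ∀ n, |f n| ≤ 1) :
    Tendsto (fun s : ℝ => LSeries (fun n => (f n : ℂ)) s) (𝓝[>] 1)
      (𝓝 ((∑' n, tm f 1 n : ℝ) : ℂ)) := by
  have h := (Complex.continuous_ofReal.tendsto _).comp (tsum_tm_tendsto hB hf0)
  refine h.congr' ?_
  have h2 : ∀ᶠ s : ℝ in 𝓝[>] 1, s < 2 :=
    (eventually_lt_nhds (by norm_num : (1 : ℝ) < 2)).filter_mono nhdsWithin_le_nhds
  filter_upwards [self_mem_nhdsWithin, h2] with s hs hs2
  rw [LSeries_eq_tsum_tm hB hf0 hf1 hs hs2.le]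
  rfl

variable {p : ℕ} [Fact p.Prime]

/-- the coefficients -/
noncomputable def fl (p : ℕ) [Fact p.Prime] (n : ℕ) : ℝ := (legendreSym p n : ℝ)

theorem fl_eq (n : ℕ) : fl p n = (qc p (n : ZMod p) : ℝ) := by
  simp [fl, legendreSym, qc]

theorem fl_add_period (n : ℕ) : fl p (n + p) = fl p n := by
  rw [fl_eq, fl_eq]; push_cast; simp

theorem fl_zero : fl p 0 = 0 := by rw [fl_eq]; simp [qc]

theorem fl_abs (n : ℕ) : |fl p n| ≤ 1 := by
  rw [fl_eq]
  by_cases h : (n : ZMod p) = 0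
  · rw [h]; simp [qc]
  · rcases quadraticChar_dichotomy h with h1 | h1
    · simp [qc, h1]
    · simp [qc, h1]

theorem pS_period (hp2 : p ≠ 2) (n : ℕ) : pS (fl p) (n + p) = pS (fl p) n := by
  have h0 : pS (fl p) p = 0 := by
    unfold pS
    have h1 : ∑ x : ZMod p, (qc p x : ℝ) = 0 := by
      have := qc_sum (p := p) hp2
      exact_mod_cast congrArg (Int.cast : ℤ → ℝ) this
    rw [← h1]
    symm
    refine Finset.sum_nbij' (fun x => x.val) (fun a => (a : ZMod p)) ?_ ?_ ?_ ?_ ?_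
    · intro x _; exact Finset.mem_range.2 (ZMod.val_lt x)
    · intro a _; exact Finset.mem_univ _
    · intro x _; exact ZMod.natCast_zmod_val x
    · intro a ha; exact ZMod.val_cast_of_lt (Finset.mem_range.1 ha)
    · intro x _; rw [fl_eq, ZMod.natCast_zmod_val]
  unfold pS at *
  rw [add_comm n p, Finset.sum_range_add, h0, zero_add]
  refine Finset.sum_congr rfl fun k _ => ?_
  rw [add_comm, fl_add_period]

theorem pS_bound (hp2 : p ≠ 2) (n : ℕ) : |pS (fl p) n| ≤ p := by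
  have hp0 : 0 < p := (Fact.out : p.Prime).pos
  induction n using Nat.strong_induction_on with
  | _ n ih =>
    by_cases h : n < p
    · unfold pS
      refine (Finset.abs_sum_le_sum_abs _ _).trans ?_
      refine (Finset.sum_le_sum fun k _ => fl_abs k).trans ?_
      simp
      exact h.le
    · push Not at h
      obtain ⟨m, rfl⟩ : ∃ m, n = m + p := ⟨n - p, by omega⟩
      rw [pS_period hp2]
      exact ih m (by omega)

/-- `(1/τ) ∑ χ(a) (-log (1 - z ζ^a))` -/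
theorem power_series (hp2 : p ≠ 2) {ψ : AddChar (ZMod p) ℂ} (hψ : ψ.IsPrimitive) {z : ℝ}
    (hz0 : 0 ≤ z) (hz : z < 1) :
    ∑' n : ℕ, ((fl p n * (n : ℝ)⁻¹ : ℝ) : ℂ) * (z : ℂ) ^ n =
      (tau p ψ)⁻¹ * ∑ a : ZMod p, (qc p a : ℂ) * (-Complex.log (1 - (z : ℂ) * ψ a)) := by
  have hτ := tau_ne_zero hp2 hψ
  have h1 : ∀ a : ZMod p, HasSum (fun n : ℕ => (qc p a : ℂ) * (((z : ℂ) * ψ a) ^ n / n))
      ((qc p a : ℂ) * (-Complex.log (1 - (z : ℂ) * ψ a))) := by
    intro a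
    apply HasSum.mul_left
    apply Complex.hasSum_taylorSeries_neg_log
    have h2 : ‖ψ a‖ = 1 :=
      Complex.norm_eq_one_of_pow_eq_one (psi_pow_p ψ a) (Fact.out : p.Prime).ne_zero
    rw [norm_mul, h2, mul_one, Complex.norm_real, Real.norm_eq_abs, abs_of_nonneg hz0]
    exact hz
  have h2 := (hasSum_sum (s := univ) fun a _ => h1 a).mul_left (tau p ψ)⁻¹
  rw [← h2.tsum_eq]
  refine tsum_congr fun n => ?_
  have h3 := sum_qc_psi hp2 ψ (n : ZMod p)
  have h4 : ∑ a : ZMod p, (qc p a : ℂ) * (((z : ℂ) * ψ a) ^ n / n) =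
      ((z : ℂ) ^ n / n) * ∑ a : ZMod p, (qc p a : ℂ) * ψ (a * n) := by
    rw [Finset.mul_sum]
    refine Finset.sum_congr rfl fun a _ => ?_
    have : ψ (a * n) = ψ a ^ n := by
      rw [← AddChar.map_nsmul_eq_pow, nsmul_eq_mul, mul_comm]
    rw [this, mul_pow]; ring
  rw [h4, h3, fl_eq]
  push_cast
  field_simp

theorem re_pos {ψ : AddChar (ZMod p) ℂ} (hψ : ψ.IsPrimitive) {a : ZMod p} (ha : a ≠ 0) :
    0 < (1 - ψ a).re := by
  have h2 : ‖ψ a‖ = 1 :=
    Complex.norm_eq_one_of_pow_eq_one (psi_pow_p ψ a) (Fact.out : p.Prime).ne_zero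
  have h3 : ψ a ≠ 1 := by
    intro h
    exact ha ((AddChar.IsPrimitive.zmod_char_eq_one_iff p hψ a).1 h)
  rw [Complex.sub_re, Complex.one_re]
  have h4 : (ψ a).re ≤ 1 := by
    have := Complex.re_le_norm (ψ a); rwa [h2] at this
  have h5 : (ψ a).re ≠ 1 := by
    intro h
    apply h3
    have h6 : (ψ a).re ^ 2 + (ψ a).im ^ 2 = 1 := by
      have := Complex.sq_norm_sub_sq_re (ψ a)
      rw [h2] at this
      linarith
    rw [h] at h6
    have h7 : (ψ a).im = 0 := by nlinarith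
    exact Complex.ext (by simpa using h) (by simpa using h7)
  have := lt_of_le_of_ne h4 h5
  linarith

theorem limit_value (hp2 : p ≠ 2) {ψ : AddChar (ZMod p) ℂ} (hψ : ψ.IsPrimitive) :
    ((∑' n, tm (fl p) 1 n : ℝ) : ℂ) =
      (tau p ψ)⁻¹ * ∑ a : ZMod p, (qc p a : ℂ) * (-Complex.log (1 - ψ a)) := by
  have h1 := partial_tendsto (pS_bound (p := p) hp2) fl_zero le_rfl (by norm_num : (1 : ℝ) ≤ 2)
  have h2 : Tendsto (fun N => ∑ n ∈ Finset.range N, ((fl p n * (n : ℝ)⁻¹ : ℝ) : ℂ)) atTop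
      (𝓝 ((∑' n, tm (fl p) 1 n : ℝ) : ℂ)) := by
    have := (Complex.continuous_ofReal.tendsto _).comp h1
    refine this.congr fun N => ?_
    simp only [Function.comp_apply]
    push_cast
    refine Finset.sum_congr rfl fun n _ => ?_
    rw [Real.rpow_neg_one]
    push_cast; ring
  have h3 := Complex.tendsto_tsum_powerSeries_nhdsWithin_lt h2
  rw [tendsto_map'_iff] at h3
  have h4 : Tendsto (fun z : ℝ => (tau p ψ)⁻¹ * ∑ a : ZMod p, (qc p a : ℂ) *
      (-Complex.log (1 - (z : ℂ) * ψ a))) (𝓝[<] 1)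
      (𝓝 ((tau p ψ)⁻¹ * ∑ a : ZMod p, (qc p a : ℂ) * (-Complex.log (1 - ψ a)))) := by
    refine Tendsto.mono_left ?_ (nhdsWithin_le_nhds (s := Set.Iio 1))
    apply Tendsto.const_mul
    apply tendsto_finsetSum
    intro a _
    by_cases ha : a = 0
    · subst ha; simp [qc]
    · apply Tendsto.const_mul
      apply Tendsto.neg
      have hc : ContinuousAt (fun z : ℝ => Complex.log (1 - (z : ℂ) * ψ a)) 1 := by
        apply ContinuousAt.clog
        · fun_prop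
        · left
          have := re_pos hψ ha
          simpa using this
      have := hc.tendsto
      simpa using this
  refine tendsto_nhds_unique (f := fun z : ℝ => (tau p ψ)⁻¹ * ∑ a : ZMod p, (qc p a : ℂ) *
      (-Complex.log (1 - (z : ℂ) * ψ a))) (l := 𝓝[<] (1 : ℝ)) ?_ h4
  refine h3.congr' ?_
  have h5 : ∀ᶠ z : ℝ in 𝓝[<] 1, 0 < z :=
    (eventually_gt_nhds (by norm_num : (0 : ℝ) < 1)).filter_mono nhdsWithin_le_nhds
  filter_upwards [self_mem_nhdsWithin, h5] with z hz hz0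
  exact power_series hp2 hψ hz0.le hz

theorem log_sum_eq (hp : p % 4 = 1) {ψ : AddChar (ZMod p) ℂ} (hψ : ψ.IsPrimitive) :
    ∑ a : ZMod p, (qc p a : ℂ) * (-Complex.log (1 - ψ a)) =
      - ∑ a : ZMod p, (qc p a : ℂ) * (Real.log ‖1 - ψ a‖ : ℂ) := by
  obtain ⟨m, hm⟩ : ∃ m, p = 4 * m + 1 := ⟨p / 4, by omega⟩
  have h1 : ∑ a : ZMod p, (qc p a : ℂ) * (-Complex.log (1 - ψ a)) =
      ∑ a : ZMod p, (qc p a : ℂ) * (-Complex.log (1 - ψ (-a))) := by
    refine Fintype.sum_bijective (fun a => -a) neg_involutive.bijective _ _ fun a => ?_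
    rw [neg_neg, qc_neg_of_one hm]
  have h2 : ∀ a : ZMod p, (qc p a : ℂ) * (-Complex.log (1 - ψ a)) +
      (qc p a : ℂ) * (-Complex.log (1 - ψ (-a))) =
      -(2 * ((qc p a : ℂ) * (Real.log ‖1 - ψ a‖ : ℂ))) := by
    intro a
    by_cases ha : a = 0
    · subst ha; simp [qc]
    · have h3 : (1 - ψ (-a)) = (starRingEnd ℂ) (1 - ψ a) := by
        have h4 : ‖ψ a‖ = 1 :=
          Complex.norm_eq_one_of_pow_eq_one (psi_pow_p ψ a) (Fact.out : p.Prime).ne_zero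
        rw [map_sub, map_one, AddChar.map_neg_eq_inv, Complex.inv_def, Complex.normSq_eq_norm_sq,
          h4]
        simp
      have h5 := re_pos hψ ha
      have h6 : (1 - ψ a).arg ≠ Real.pi := by
        intro h
        rw [Complex.arg_eq_pi_iff] at h
        linarith [h.1]
      have h7 : Complex.log (1 - ψ a) + (starRingEnd ℂ) (Complex.log (1 - ψ a)) =
          2 * (Real.log ‖1 - ψ a‖ : ℂ) := by
        rw [Complex.add_conj, Complex.log_re]; push_cast; ring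
      rw [h3, Complex.log_conj _ h6]
      linear_combination (-(qc p a : ℂ)) * h7
  have h8 : 2 * ∑ a : ZMod p, (qc p a : ℂ) * (-Complex.log (1 - ψ a)) =
      2 * (- ∑ a : ZMod p, (qc p a : ℂ) * (Real.log ‖1 - ψ a‖ : ℂ)) := by
    rw [two_mul]
    conv_lhs => arg 2; rw [h1]
    rw [← Finset.sum_add_distrib, Finset.sum_congr rfl fun a _ => h2 a,
      Finset.sum_neg_distrib, ← Finset.mul_sum]
    ring
  exact mul_left_cancel₀ two_ne_zero h8

/-- MODULE C -/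
theorem tendsto_LSeries (p : ℕ) [Fact p.Prime] (hp : p % 4 = 1) (ζ : ℂ)
    (hζ : IsPrimitiveRoot ζ p) :
    Tendsto (fun s : ℝ => LSeries (fun n => (legendreSym p n : ℂ)) s) (𝓝[>] 1)
      (𝓝 (-(∑ a ∈ Finset.range p, (legendreSym p a : ℂ) * ζ ^ a)⁻¹ *
        ∑ a ∈ Finset.range p, (legendreSym p a : ℂ) * (Real.log ‖1 - ζ ^ a‖ : ℂ))) := by
  have hp2 : p ≠ 2 := by omega
  have hψ := AddChar.zmodChar_primitive_of_primitive_root p hζ
  obtain ⟨ψ, hψe⟩ : ∃ ψ, ψ = AddChar.zmodChar p ((IsPrimitiveRoot.iff_def ζ p).mp hζ).left :=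
    ⟨_, rfl⟩
  rw [← hψe] at hψ
  have h1 := LSeries_tendsto (pS_bound (p := p) hp2) fl_zero fl_abs
  rw [limit_value hp2 hψ, log_sum_eq hp hψ] at h1
  have e0 : ∀ a : ℕ, ψ (a : ZMod p) = ζ ^ a := fun a => by
    rw [hψe]; exact AddChar.zmodChar_apply' _ a
  have eq : ∀ a : ℕ, (legendreSym p a : ℂ) = (qc p (a : ZMod p) : ℂ) := fun a => by
    simp [legendreSym, qc]
  have hr : ∀ f : ZMod p → ℂ, ∑ x : ZMod p, f x = ∑ a ∈ Finset.range p, f (a : ZMod p) := by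
    intro f
    refine Finset.sum_nbij' (fun x => x.val) (fun a => (a : ZMod p)) ?_ ?_ ?_ ?_ ?_
    · intro x _; exact Finset.mem_range.2 (ZMod.val_lt x)
    · intro a _; exact Finset.mem_univ _
    · intro x _; exact ZMod.natCast_zmod_val x
    · intro a ha; exact ZMod.val_cast_of_lt (Finset.mem_range.1 ha)
    · intro x _; rw [ZMod.natCast_zmod_val]
  have e1 : tau p ψ = ∑ a ∈ Finset.range p, (legendreSym p a : ℂ) * ζ ^ a := by
    unfold tau
    rw [hr]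
    exact Finset.sum_congr rfl fun a _ => by rw [e0, eq]
  have e2 : ∑ a : ZMod p, (qc p a : ℂ) * (Real.log ‖1 - ψ a‖ : ℂ) =
      ∑ a ∈ Finset.range p, (legendreSym p a : ℂ) * (Real.log ‖1 - ζ ^ a‖ : ℂ) := by
    rw [hr]
    exact Finset.sum_congr rfl fun a _ => by rw [e0, eq]
  rw [e1, e2] at h1
  have e3 : (fun s : ℝ => LSeries (fun n => (fl p n : ℂ)) s) =
      (fun s : ℝ => LSeries (fun n => (legendreSym p n : ℂ)) s) := by
    ext s; congr 1
  rw [e3] at h1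
  rw [neg_mul, ← mul_neg]
  exact h1

end Pool.Agent.H25.LD
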