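import Mathlib
import Pool.Agent.H25.LD.LSeriesOne
import Pool.Agent.H29.LD.A1
import Pool.Agent.H29.LD.B

/-! Class number formula for `ℚ(√p)` in finite form. -/

open NumberField Filter Topology ArithmeticFunction

namespace Pool.Agent.H25.LD

open Pool.Agent.H29.LD (exists_omega exists_unit_residue card_ideal_eq)

theorem dedekind_factor (p : ℕ) [Fact p.Prime] (hp : p % 4 = 1) (K : Type) [Field K]
    [NumberField K] (ω : 𝓞 K) (hω : ω ^ 2 = ω + (((p - 1) / 4 : ℕ) : 𝓞 K))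
    (hb : ∀ x : 𝓞 K, ∃ a b : ℤ, x = a + b * ω) {s : ℝ} (hs : 1 < s) :
    dedekindZeta K s = riemannZeta s * LSeries (fun n => (legendreSym p n : ℂ)) s := by
  have hs' : 1 < (s : ℂ).re := by simpa using hs
  have h1 : LSeriesSummable (fun n => (legendreSym p n : ℂ)) s := by
    refine LSeriesSummable_of_bounded_of_one_lt_re (m := 1) (fun n _ => ?_) hs'
    have : legendreSym p n = 0 ∨ legendreSym p n = 1 ∨ legendreSym p n = -1 := by
      by_cases h : ((n : ℤ) : ZMod p) = 0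
      · left; rw [legendreSym, h]; simp
      · right; exact quadraticChar_dichotomy h
    rcases this with h | h | h <;> simp [h]
  have h2 : LSeriesSummable (1 : ℕ → ℂ) s := LSeriesSummable_one_iff.2 hs'
  rw [← LSeries_one_eq_riemannZeta hs', ← LSeries_convolution' h2 h1]
  unfold dedekindZeta
  refine LSeries_congr (fun {n} hn => ?_) s
  rw [LSeries.convolution_def]
  have h3 := card_ideal_eq p hp K ω hω hb n hn
  have h4 : ((Nat.card {I : Ideal (𝓞 K) // Ideal.absNorm I = n} : ℕ) : ℂ) =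
      ((∑ d ∈ n.divisors, legendreSym p d : ℤ) : ℂ) := by
    rw [← h3]; push_cast; rfl
  rw [h4]
  simp only [Pi.one_apply, one_mul]
  rw [Nat.sum_divisorsAntidiagonal' (fun _ d => (legendreSym p d : ℂ))]
  push_cast
  rfl

/-- finite form of the class number formula -/
theorem class_number_formula (p : ℕ) [Fact p.Prime] (hp : p % 4 = 1) (K : Type) [Field K]
    [NumberField K] (σ : K →+* ℝ) (θ : K) (hθ : σ θ = √p)
    (hK : ∀ x : K, ∃ a b : ℚ, x = a + b * θ) (ζ : ℂ) (hζ : IsPrimitiveRoot ζ p)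
    (hτ : ∑ a ∈ Finset.range p, (legendreSym p a : ℂ) * ζ ^ a = (√p : ℝ)) :
    ∃ ε : ℝ, IsLeast {x : ℝ | 1 < x ∧ ∃ u : (𝓞 K)ˣ, σ (u : K) = x} ε ∧
      ∑ a ∈ Finset.range p, (legendreSym p a : ℝ) * Real.log ‖1 - ζ ^ a‖ =
        - (2 * classNumber K * Real.log ε) := by
  obtain ⟨ε, hε, hres⟩ := exists_unit_residue p hp K σ θ hθ hK
  refine ⟨ε, hε, ?_⟩
  have hp0 : (0 : ℝ) < p := by exact_mod_cast (Fact.out : p.Prime).pos
  have hsq : (0 : ℝ) < √p := Real.sqrt_pos.2 hp0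
  have hθ2 : θ ^ 2 = p := by
    apply σ.injective
    rw [map_pow, hθ, Real.sq_sqrt hp0.le, map_natCast]
  obtain ⟨ω, _, hω, hb⟩ := exists_omega p hp K θ hθ2 hK
  have h1 := tendsto_sub_one_mul_dedekindZeta_nhdsGT K
  have h2 := tendsto_LSeries p hp ζ hζ
  have h3 : Tendsto (fun s : ℝ => ((s : ℂ) - 1) * riemannZeta s) (𝓝[>] 1) (𝓝 1) := by
    have h4 := riemannZeta_residue_one
    refine h4.comp ?_
    have : Tendsto (fun s : ℝ => (s : ℂ)) (𝓝[>] (1 : ℝ)) (𝓝[≠] (1 : ℂ)) := by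
      refine tendsto_nhdsWithin_iff.2 ⟨?_, ?_⟩
      · have : Tendsto (fun s : ℝ => (s : ℂ)) (𝓝 (1 : ℝ)) (𝓝 ((1 : ℝ) : ℂ)) :=
          Complex.continuous_ofReal.tendsto 1
        rw [Complex.ofReal_one] at this
        exact this.mono_left nhdsWithin_le_nhds
      · filter_upwards [self_mem_nhdsWithin] with s hs
        simp only [Set.mem_compl_iff, Set.mem_singleton_iff]
        intro h
        have : s = 1 := by exact_mod_cast h
        exact absurd hs (by rw [this]; simp)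
    exact this
  have h5 := h3.mul h2
  have h6 : Tendsto (fun s : ℝ => ((s : ℂ) - 1) * dedekindZeta K s) (𝓝[>] 1)
      (𝓝 (1 * (-(∑ a ∈ Finset.range p, (legendreSym p a : ℂ) * ζ ^ a)⁻¹ *
        ∑ a ∈ Finset.range p, (legendreSym p a : ℂ) * (Real.log ‖1 - ζ ^ a‖ : ℂ)))) := by
    refine h5.congr' ?_
    filter_upwards [self_mem_nhdsWithin] with s hs
    rw [dedekind_factor p hp K ω hω hb hs]
    ring
  have h7 := tendsto_nhds_unique h1 h6
  rw [hτ, hres] at h7
  have h8 : (((2 * classNumber K * Real.log ε / √p : ℝ)) : ℂ) =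
      ((-(√p)⁻¹ * ∑ a ∈ Finset.range p, (legendreSym p a : ℝ) * Real.log ‖1 - ζ ^ a‖ : ℝ) : ℂ) := by
    rw [h7]; push_cast; ring
  have h9 := Complex.ofReal_injective h8
  have hne := hsq.ne'
  field_simp at h9
  linarith

end Pool.Agent.H25.LD
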