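import Mathlib
import Pool.Agent.H25.LD.PartOne
import Pool.Agent.H25.LD.ClassNum

/-! Final assembly. -/

open NumberField Finset

namespace Pool.Agent.H25.LD

variable {p : ℕ} [Fact p.Prime]

theorem sum_zmod_range {A : Type*} [AddCommMonoid A] (f : ZMod p → A) :
    ∑ x : ZMod p, f x = ∑ a ∈ Finset.range p, f (a : ZMod p) := by
  refine Finset.sum_nbij' (fun x => x.val) (fun a => (a : ZMod p)) ?_ ?_ ?_ ?_ ?_
  · intro x _; exact Finset.mem_range.2 (ZMod.val_lt x)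
  · intro a _; exact Finset.mem_univ _
  · intro x _; exact ZMod.natCast_zmod_val x
  · intro a ha; exact ZMod.val_cast_of_lt (Finset.mem_range.1 ha)
  · intro x _; rw [ZMod.natCast_zmod_val]

theorem exists_psi (hp : p % 4 = 1) : ∃ ψ : AddChar (ZMod p) ℂ, ψ.IsPrimitive ∧
    tau p ψ = ((√p : ℝ) : ℂ) := by
  have hp2 : p ≠ 2 := by omega
  obtain ⟨ψ, hψ⟩ : ∃ ψ : AddChar (ZMod p) ℂ, ψ.IsPrimitive := by
    have h := Complex.isPrimitiveRoot_exp p (Fact.out : p.Prime).ne_zero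
    exact ⟨_, AddChar.zmodChar_primitive_of_primitive_root p h⟩
  obtain ⟨g, hg⟩ := exists_nonres (p := p) hp2
  obtain ⟨m, hm⟩ : ∃ m, p = 4 * m + 1 := ⟨p / 4, by omega⟩
  have hq1 : qc p (-1) = 1 := by
    have := qc_neg_of_one hm 1
    rw [this]; simp [qc]
  have hτ2 := tau_sq hp2 hψ
  rw [hq1] at hτ2
  have hs : ((√p : ℝ) : ℂ) ^ 2 = p := by
    rw [← Complex.ofReal_pow, Real.sq_sqrt (Nat.cast_nonneg p)]; simp
  have h1 : (tau p ψ - ((√p : ℝ) : ℂ)) * (tau p ψ + ((√p : ℝ) : ℂ)) = 0 := by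
    push_cast at hτ2
    linear_combination hτ2 - hs
  rcases mul_eq_zero.1 h1 with h | h
  · exact ⟨ψ, hψ, sub_eq_zero.1 h⟩
  · refine ⟨ψ.mulShift g, mulShift_primitive hψ (ne_zero_of_qc hg), ?_⟩
    rw [tau_mulShift hp2 hg]
    linear_combination -h

theorem psi_natCast (ψ : AddChar (ZMod p) ℂ) (a : ℕ) : ψ (a : ZMod p) = ψ 1 ^ a := by
  rw [← AddChar.map_nsmul_eq_pow, nsmul_eq_mul, mul_one]

theorem norm_psi (ψ : AddChar (ZMod p) ℂ) (a : ZMod p) : ‖ψ a‖ = 1 :=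
  Complex.norm_eq_one_of_pow_eq_one (psi_pow_p ψ a) (Fact.out : p.Prime).ne_zero

theorem conj_psi (ψ : AddChar (ZMod p) ℂ) (a : ZMod p) :
    (starRingEnd ℂ) (ψ a) = ψ (-a) := by
  rw [AddChar.map_neg_eq_inv, Complex.inv_def, Complex.normSq_eq_norm_sq, norm_psi]
  simp

theorem eta_neg (ψ : AddChar (ZMod p) ℂ) (d : ZMod p) :
    eta ψ (-d) = (starRingEnd ℂ) (eta ψ d) := by
  unfold eta
  rw [map_div₀, map_sub, map_add, map_one, conj_psi, neg_mul]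

theorem prod_eta_norm (hp : p % 4 = 1) {ψ : AddChar (ZMod p) ℂ} (hψ : ψ.IsPrimitive) (S : Finset (ZMod p))
    (hS0 : (0 : ZMod p) ∉ S) (hS : ∀ d ∈ S, -d ∈ S) :
    ∏ d ∈ S, eta ψ d = ((∏ d ∈ S, ‖eta ψ d‖ : ℝ) : ℂ) := by
  have hp2 : p ≠ 2 := by omega
  have hne : ∀ d ∈ S, eta ψ d ≠ 0 := fun d hd =>
    eta_ne_zero hp2 hψ (fun h => hS0 (h ▸ hd))
  have h1 : ∏ d ∈ S, (eta ψ d / (‖eta ψ d‖ : ℂ)) = 1 := by
    refine Finset.prod_involution (fun d _ => -d) ?_ ?_ ?_ ?_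
    · intro d hd
      rw [eta_neg, Complex.norm_conj]
      have h2 := hne d hd
      have h3 : (‖eta ψ d‖ : ℂ) ≠ 0 := by
        simpa using h2
      rw [div_mul_div_comm, Complex.mul_conj, Complex.normSq_eq_norm_sq]
      push_cast
      field_simp
    · intro d hd _ h
      have h4 : (2 : ZMod p) * d = 0 := by linear_combination -h
      rcases mul_eq_zero.1 h4 with h5 | h5
      · exact two_ne_zero' hp2 h5
      · exact hS0 (h5 ▸ hd)
    · intro d hd; exact hS d hd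
    · intro d _; simp
  rw [Finset.prod_div_distrib] at h1
  push_cast
  have h6 : ∏ d ∈ S, (‖eta ψ d‖ : ℂ) ≠ 0 := by
    refine Finset.prod_ne_zero_iff.2 fun d hd => ?_
    have := hne d hd
    simpa using this
  exact (div_eq_one_iff_eq h6).1 h1

/-- `log |1 - ψ x|` -/
noncomputable def ll (ψ : AddChar (ZMod p) ℂ) (x : ZMod p) : ℝ := Real.log ‖1 - ψ x‖

theorem one_sub_ne_zero {ψ : AddChar (ZMod p) ℂ} (hψ : ψ.IsPrimitive) {d : ZMod p}
    (hd : d ≠ 0) : 1 - ψ d ≠ 0 := by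
  rw [sub_ne_zero]
  intro h
  exact hd ((AddChar.IsPrimitive.zmod_char_eq_one_iff p hψ d).1 h.symm)

theorem log_norm_eta (hp2 : p ≠ 2) {ψ : AddChar (ZMod p) ℂ} (hψ : ψ.IsPrimitive) {d : ZMod p}
    (hd : d ≠ 0) : Real.log ‖eta ψ d‖ = 2 * ll ψ (d * 2⁻¹) - ll ψ d := by
  have h2i : (2⁻¹ : ZMod p) ≠ 0 := inv_ne_zero (two_ne_zero' hp2)
  have h1 : (1 - ψ (d * 2⁻¹)) * (1 + ψ (d * 2⁻¹)) = 1 - ψ d := by
    have : ψ d = ψ (d * 2⁻¹) ^ 2 := by
      rw [← AddChar.map_nsmul_eq_pow, nsmul_eq_mul]; congr 1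
      have := two_ne_zero' (p := p) hp2
      push_cast; field_simp
    rw [this]; ring
  have h2 := one_sub_ne_zero hψ (mul_ne_zero hd h2i)
  have h3 := one_sub_ne_zero hψ hd
  have h4 : 1 + ψ (d * 2⁻¹) ≠ 0 := by
    intro h; rw [h, mul_zero] at h1; exact h3 h1.symm
  have h5 : eta ψ d = -(1 - ψ (d * 2⁻¹)) / (1 + ψ (d * 2⁻¹)) := by
    unfold eta; congr 1 <;> ring
  unfold ll
  rw [h5, ← h1, norm_div, norm_neg, norm_mul, Real.log_div (norm_ne_zero_iff.2 h2)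
    (norm_ne_zero_iff.2 h4), Real.log_mul (norm_ne_zero_iff.2 h2) (norm_ne_zero_iff.2 h4)]
  ring

theorem zero_not_mem_SR : (0 : ZMod p) ∉ SR p := by rw [mem_SR]; simp [qc]
theorem zero_not_mem_ST : (0 : ZMod p) ∉ ST p := by rw [mem_ST]; simp [qc]

theorem sum_SR_add_ST (f : ZMod p → ℝ) (hf : f 0 = 0) :
    ∑ d ∈ SR p, f d + ∑ d ∈ ST p, f d = ∑ d, f d := by
  unfold SR ST
  rw [Finset.sum_filter, Finset.sum_filter, ← Finset.sum_add_distrib]
  refine Finset.sum_congr rfl fun d _ => ?_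
  by_cases hd : d = 0
  · subst hd; simp [hf]
  · rcases quadraticChar_dichotomy hd with h | h
    · simp [qc, h]
    · simp [qc, h]

theorem sum_SR_sub_ST (f : ZMod p → ℝ) :
    ∑ d ∈ SR p, f d - ∑ d ∈ ST p, f d = ∑ d, (qc p d : ℝ) * f d := by
  unfold SR ST
  rw [Finset.sum_filter, Finset.sum_filter, ← Finset.sum_sub_distrib]
  refine Finset.sum_congr rfl fun d _ => ?_
  by_cases hd : d = 0
  · subst hd; simp [qc]
  · rcases quadraticChar_dichotomy hd with h | h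
    · simp [qc, h]
    · simp [qc, h]

theorem sum_ll {ψ : AddChar (ZMod p) ℂ} (hψ : ψ.IsPrimitive) :
    ∑ d, ll ψ d = Real.log p := by
  have h1 := prod_one_sub_psi hψ
  have h2 : ∏ d ∈ univ.erase (0 : ZMod p), ‖1 - ψ d‖ = p := by
    rw [← norm_prod, h1]; simp
  rw [← h2, Real.log_prod (fun d hd => norm_ne_zero_iff.2
    (one_sub_ne_zero hψ (Finset.mem_erase.1 hd).1))]
  rw [← Finset.add_sum_erase univ _ (Finset.mem_univ (0 : ZMod p))]
  simp [ll]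

theorem qc_half (d : ZMod p) : qc p (d * 2⁻¹) = qc p d * qc p 2 := by
  rw [← qc_inv (2 : ZMod p)]; unfold qc; rw [map_mul]

theorem sum_half (hp2 : p ≠ 2) (f : ZMod p → ℝ) (S T : Finset (ZMod p))
    (h : ∀ d, d ∈ S ↔ d * 2⁻¹ ∈ T) : ∑ d ∈ S, f (d * 2⁻¹) = ∑ d ∈ T, f d := by
  have h2 := two_ne_zero' (p := p) hp2
  refine Finset.sum_bij (fun d _ => d * 2⁻¹) ?_ ?_ ?_ ?_
  · intro d hd; exact (h d).1 hd
  · intro a _ b _ hab; exact mul_right_cancel₀ (inv_ne_zero h2) hab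
  · intro d hd
    refine ⟨d * 2, ?_, by field_simp⟩
    rw [h, mul_assoc, mul_inv_cancel₀ h2, mul_one]; exact hd
  · intro d _; rfl

/-- the value of `√p α` or `√p β` -/
theorem value_eq (hp : p % 4 = 1) {ψ : AddChar (ZMod p) ℂ} (hψ : ψ.IsPrimitive)
    {h : ℕ} {ε : ℝ} (hε : 1 < ε)
    (hL : ∑ d, (qc p d : ℝ) * ll ψ d = -(2 * h * Real.log ε)) :
    ((√p : ℝ) : ℂ) * (if qc p 2 = 1 then (∏ d ∈ SR p, eta ψ d)⁻¹ else (∏ d ∈ ST p, eta ψ d)⁻¹) =
      ((ε ^ ((2 - qc p 2) * (h : ℤ)) : ℝ) : ℂ) := by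
  have hp2 : p ≠ 2 := by omega
  obtain ⟨m, hm⟩ : ∃ m, p = 4 * m + 1 := ⟨p / 4, by omega⟩
  have hp0 : (0 : ℝ) < p := by exact_mod_cast (Fact.out : p.Prime).pos
  have hsq : (0 : ℝ) < √p := Real.sqrt_pos.2 hp0
  have hneg := qc_neg_of_one hm
  have hR := prod_eta_norm hp hψ (SR p) zero_not_mem_SR
    (fun d hd => by rw [mem_SR] at hd ⊢; rw [hneg, hd])
  have hT := prod_eta_norm hp hψ (ST p) zero_not_mem_ST
    (fun d hd => by rw [mem_ST] at hd ⊢; rw [hneg, hd])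
  have hRne : ∀ d ∈ SR p, ‖eta ψ d‖ ≠ 0 := fun d hd =>
    norm_ne_zero_iff.2 (eta_ne_zero hp2 hψ (fun h => zero_not_mem_SR (h ▸ hd)))
  have hTne : ∀ d ∈ ST p, ‖eta ψ d‖ ≠ 0 := fun d hd =>
    norm_ne_zero_iff.2 (eta_ne_zero hp2 hψ (fun h => zero_not_mem_ST (h ▸ hd)))
  have hRpos : 0 < ∏ d ∈ SR p, ‖eta ψ d‖ :=
    Finset.prod_pos fun d hd => lt_of_le_of_ne (norm_nonneg _) (hRne d hd).symm
  have hTpos : 0 < ∏ d ∈ ST p, ‖eta ψ d‖ :=
    Finset.prod_pos fun d hd => lt_of_le_of_ne (norm_nonneg _) (hTne d hd).symm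
  have hll0 : ll ψ 0 = 0 := by simp [ll]
  have e1 := sum_SR_add_ST (ll ψ) hll0
  rw [sum_ll hψ] at e1
  have e2 := sum_SR_sub_ST (ll ψ)
  rw [hL] at e2
  have hε0 : 0 < ε := by linarith
  have hlog : Real.log (√p) = Real.log p / 2 := Real.log_sqrt hp0.le
  have hq2 : qc p 2 = 1 ∨ qc p 2 = -1 := quadraticChar_dichotomy (two_ne_zero' hp2)
  rcases hq2 with hq | hq
  · rw [if_pos hq, hR, hq, ← Complex.ofReal_inv, ← Complex.ofReal_mul]
    congr 1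
    apply Real.log_injOn_pos (Set.mem_Ioi.2 (mul_pos hsq (inv_pos.2 hRpos)))
      (Set.mem_Ioi.2 (zpow_pos hε0 _))
    rw [Real.log_mul hsq.ne' (inv_pos.2 hRpos).ne', Real.log_inv, Real.log_zpow,
      Real.log_prod hRne, hlog]
    rw [Finset.sum_congr rfl fun d hd => log_norm_eta hp2 hψ
      (fun h => zero_not_mem_SR (h ▸ hd)), Finset.sum_sub_distrib, ← Finset.mul_sum,
      sum_half hp2 (ll ψ) (SR p) (SR p) (fun d => by rw [mem_SR, mem_SR, qc_half, hq, mul_one])]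
    push_cast
    linarith
  · have hq' : ¬ (qc p 2 = 1) := by rw [hq]; norm_num
    rw [if_neg hq', hT, hq, ← Complex.ofReal_inv, ← Complex.ofReal_mul]
    congr 1
    apply Real.log_injOn_pos (Set.mem_Ioi.2 (mul_pos hsq (inv_pos.2 hTpos)))
      (Set.mem_Ioi.2 (zpow_pos hε0 _))
    rw [Real.log_mul hsq.ne' (inv_pos.2 hTpos).ne', Real.log_inv, Real.log_zpow,
      Real.log_prod hTne, hlog]
    rw [Finset.sum_congr rfl fun d hd => log_norm_eta hp2 hψ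
      (fun h => zero_not_mem_ST (h ▸ hd)), Finset.sum_sub_distrib, ← Finset.mul_sum,
      sum_half hp2 (ll ψ) (ST p) (SR p) (fun d => by
        rw [mem_SR, mem_ST, qc_half, hq]
        constructor
        · intro h; rw [h]; norm_num
        · intro h; omega)]
    push_cast
    linarith

end Pool.Agent.H25.LD
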